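import Mathlib

/-!
Abstract framework: modules with a linear presentation/resolution over a commutative ring `S`
with a distinguished additive subgroup `S1` (the degree one part).
-/

namespace Pool.Agent.Helper56.Koszul

universe u

/-- The part of a standard grading of `S` that is needed: the degree one part `S1` and the
projections `p0, p1, p2` onto the components of degrees `0, 1, 2`. -/
structure GrData (S : Type u) [CommRing S] where
  S1 : AddSubgroup S
  p0 : S →+ S
  p1 : S →+ S
  p2 : S →+ S
  p1_mem : ∀ x, p1 x ∈ S1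
  p1_of_mem : ∀ x ∈ S1, p1 x = x
  p2_mul : ∀ x ∈ S1, ∀ y, p2 (x * y) = x * p1 y
  p1_mul : ∀ x ∈ S1, ∀ y, p1 (x * y) = x * p0 y
  p0_mul : ∀ x ∈ S1, ∀ y, p0 (x * y) = 0
  p0_one : p0 1 = 1
  p0_p0_mul : ∀ x y, p0 (p0 x * p0 y) = p0 x * p0 y
  p0_mul_mem : ∀ x, ∀ y ∈ S1, p0 x * y ∈ S1

/-- The relations of a finite family `v` of vectors: all `f` with `∑ j, f j • v j = 0`. -/
def Ker {S : Type u} [CommRing S] {κ ι : Type} [Fintype κ] (v : κ → ι → S) :
    Submodule S (κ → S) where
  carrier := {f | ∀ i, ∑ j, f j * v j i = 0}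
  add_mem' := by
    intro f g hf hg i
    simp only [Set.mem_ofPred_eq] at hf hg
    simp [add_mul, Finset.sum_add_distrib, hf i, hg i]
  zero_mem' := by intro i; simp
  smul_mem' := by
    intro c f hf i
    simp only [Set.mem_ofPred_eq] at hf
    simp [mul_assoc, ← Finset.mul_sum, hf i]

/-- `Lin S1 n ι N`: the submodule `N` of `ι → S` is generated by finitely many vectors with
entries in `S1`, and its first `n` syzygy modules (for suitable generators) as well. -/
def Lin {S : Type u} [CommRing S] (S1 : AddSubgroup S) :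
    ℕ → (ι : Type) → Submodule S (ι → S) → Prop
  | 0, ι, N => ∃ (κ : Type) (_ : Fintype κ) (v : κ → ι → S),
      (∀ j i, v j i ∈ S1) ∧ Submodule.span S (Set.range v) = N
  | n + 1, ι, N => ∃ (κ : Type) (_ : Fintype κ) (v : κ → ι → S),
      (∀ j i, v j i ∈ S1) ∧ Submodule.span S (Set.range v) = N ∧ Lin S1 n κ (Ker v)

end Pool.Agent.Helper56.Koszul
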