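import Mathlib

/-!
Definitions used in the statement about the base ring of the Fano matroid (MP_c7d84d_co).
-/

namespace Pool.Agent.Helper56.Koszul

universe u

open MvPolynomial

/-- The seven lines of the Fano plane with point set `Fin 7`: the sets `{i, i+1, i+3}` modulo 7. -/
def fanoLines : Finset (Finset (Fin 7)) :=
  Finset.univ.image fun i : Fin 7 => {i, i + 1, i + 3}

/-- The 28 bases of the Fano matroid: the 3-element sets of points that are not lines. -/
def fanoBases : Finset (Finset (Fin 7)) :=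
  Finset.powersetCard 3 Finset.univ \ fanoLines

/-- The map `k[x_B] → k[t_0, ..., t_6]`, `x_B ↦ ∏_{i ∈ B} t_i`. Its kernel is the toric ideal. -/
noncomputable def toricMap (k : Type u) [Field k] :
    MvPolynomial {B : Finset (Fin 7) // B ∈ fanoBases} k →ₐ[k] MvPolynomial (Fin 7) k :=
  aeval fun B => ∏ i ∈ B.1, X i

/-- `R/I` is Koszul, where `R = k[x_s : s ∈ σ]` and `I` is an ideal: `I` is homogeneous and the
residue field `k = R/(x_s : s ∈ σ)` has a linear (minimal) free resolution over `S = R/I`, i.e.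
there are free modules `S^(β i)`, `β 0 = 1`, and matrices `d i : S^(β (i+1)) → S^(β i)` all of
whose entries are classes of linear forms, such that the image of `d 0` is the ideal generated by
the variables and the image of `d (i+1)` is the kernel of `d i` for all `i`. -/
def IsKoszul {k : Type u} [Field k] {σ : Type} (I : Ideal (MvPolynomial σ k)) : Prop :=
  (∀ f ∈ I, ∀ n, homogeneousComponent n f ∈ I) ∧
  ∃ (β : ℕ → ℕ) (d : ∀ i, Matrix (Fin (β i)) (Fin (β (i + 1))) (MvPolynomial σ k ⧸ I)),
    β 0 = 1 ∧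
    (∀ i p q, ∃ f : MvPolynomial σ k, f.IsHomogeneous 1 ∧ Ideal.Quotient.mk I f = d i p q) ∧
    (∀ x : Fin (β 0) → MvPolynomial σ k ⧸ I, (∃ y, (d 0).mulVec y = x) ↔
      ∀ p, x p ∈ Ideal.span (Set.range fun s : σ => Ideal.Quotient.mk I (X s))) ∧
    (∀ i (x : Fin (β (i + 1)) → MvPolynomial σ k ⧸ I),
      (∃ y, (d (i + 1)).mulVec y = x) ↔ (d i).mulVec x = 0)

end Pool.Agent.Helper56.Koszul
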