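import Mathlib
import Pool.Agent.Helper56.Koszul.Defs
import Pool.Agent.Helper56.Koszul.Statement

/-!
The monoid of the Fano base ring and its monoid algebra.
-/

namespace Pool.Agent.Helper56.Koszul

universe u

/-- the 28 bases as 7-bit masks, in increasing order -/
def bmList : List ℕ :=
  [7, 13, 14, 19, 21, 25, 26, 28, 35, 37, 38, 41, 42, 50, 52, 56, 67, 70, 73, 74, 76, 81, 82, 84,
    97, 100, 104, 112]

/-- the mask of the `b`-th basis -/
def bm (b : Fin 28) : ℕ := bmList.getD b.val 0

/-- the indicator vector of the `b`-th basis -/
def ev (b : Fin 28) : Fin 7 → ℕ := fun i => if (bm b).testBit i.val then 1 else 0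

/-- the monoid generated by the indicator vectors of the bases -/
def Lam : AddSubmonoid (Fin 7 → ℕ) := AddSubmonoid.closure (Set.range ev)

theorem ev_mem (b : Fin 28) : ev b ∈ Lam := AddSubmonoid.subset_closure ⟨b, rfl⟩

/-- the `b`-th generator of the monoid -/
def eL (b : Fin 28) : Lam := ⟨ev b, ev_mem b⟩

/-- the base ring as a monoid algebra -/
abbrev SR (k : Type u) [Field k] := AddMonoidAlgebra k Lam

/-- the variable attached to the `b`-th basis -/
noncomputable def xv (k : Type u) [Field k] (b : Fin 28) : SR k :=
  AddMonoidAlgebra.single (eL b) 1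

/-- the total degree (three times the degree in the standard grading) -/
def tdeg (l : Lam) : ℕ := ∑ i, l.1 i

/-- the degree one part of the base ring -/
def S1 (k : Type u) [Field k] : AddSubgroup (SR k) where
  carrier := {f | ∀ l, f.coeff l ≠ 0 → tdeg l = 3}
  add_mem' := by
    intro f g hf hg l hl
    by_contra h
    have h1 : f.coeff l = 0 := by
      by_contra h1; exact h (hf l h1)
    have h2 : g.coeff l = 0 := by
      by_contra h2; exact h (hg l h2)
    exact hl (by simp [h1, h2])
  zero_mem' := by intro l hl; simp at hl
  neg_mem' := by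
    intro f hf l hl
    exact hf l (by simpa using hl)

end Pool.Agent.Helper56.Koszul
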