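import Mathlib
import Pool.Agent.Helper56.Koszul.Base

/-!
Words in the generators of the monoid `Lam`, encoded by natural numbers.
-/

namespace Pool.Agent.Helper56.Koszul

/-- generator attached to a natural number letter (zero for letters `≥ 28`) -/
def eN (n : ℕ) : Lam := if h : n < 28 then eL ⟨n, h⟩ else 0

/-- base 16 codes of the 28 bases -/
def codeL : List ℕ :=
  [273, 4353, 4368, 65553, 65793, 69633, 69648, 69888, 1048593, 1048833, 1048848, 1052673,
   1052688, 1114128, 1114368, 1118208, 16777233, 16777488, 16781313, 16781328, 16781568,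
   16842753, 16842768, 16843008, 17825793, 17826048, 17829888, 17891328]

/-- code of a letter -/
def code (n : ℕ) : ℕ := codeL.getD n 0

/-- base 16 encoding -/
def enc (f : Fin 7 → ℕ) : ℕ := ∑ i, f i * 16 ^ (i : ℕ)

theorem enc_add (f g : Fin 7 → ℕ) : enc (f + g) = enc f + enc g := by
  simp [enc, add_mul, Finset.sum_add_distrib]

theorem enc_zero : enc 0 = 0 := by simp [enc]

theorem enc_inj (f g : Fin 7 → ℕ) (hf : ∀ i, f i < 16) (hg : ∀ i, g i < 16)
    (h : enc f = enc g) : f = g := by
  simp only [enc, Fin.sum_univ_seven] at h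
  have f0 := hf 0; have f1 := hf 1; have f2 := hf 2; have f3 := hf 3
  have f4 := hf 4; have f5 := hf 5; have f6 := hf 6
  have g0 := hg 0; have g1 := hg 1; have g2 := hg 2; have g3 := hg 3
  have g4 := hg 4; have g5 := hg 5; have g6 := hg 6
  have e : f 0 = g 0 ∧ f 1 = g 1 ∧ f 2 = g 2 ∧ f 3 = g 3 ∧ f 4 = g 4 ∧ f 5 = g 5 ∧ f 6 = g 6 := by
    norm_num at h
    omega
  obtain ⟨e0, e1, e2, e3, e4, e5, e6⟩ := e
  funext i
  fin_cases i <;> assumption

theorem enc_ev : ∀ b : Fin 28, enc (ev b) = code b.val := by decide +kernel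

theorem enc_eN (n : ℕ) : enc (eN n).1 = code n := by
  unfold eN
  split_ifs with h
  · exact enc_ev ⟨n, h⟩
  · have : codeL.length ≤ n := by
      have : codeL.length = 28 := rfl
      omega
    have h2 : code n = 0 := by
      unfold code
      rw [List.getD_eq_default _ _ this]
    rw [h2]
    exact enc_zero

theorem eN_le (n : ℕ) (i : Fin 7) : (eN n).1 i ≤ 1 := by
  unfold eN
  split_ifs with h
  · show ev ⟨n, h⟩ i ≤ 1
    unfold ev
    split_ifs <;> omega
  · show (0 : Fin 7 → ℕ) i ≤ 1
    simp

/-- value of a word -/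
def wv (w : List ℕ) : Lam := (w.map eN).sum

/-- code of a word -/
def wc (w : List ℕ) : ℕ := (w.map code).sum

theorem wv_nil : wv [] = 0 := rfl

theorem wv_cons (a : ℕ) (w : List ℕ) : wv (a :: w) = eN a + wv w := by simp [wv]

theorem wc_cons (a : ℕ) (w : List ℕ) : wc (a :: w) = code a + wc w := by simp [wc]

theorem wv_append (w w' : List ℕ) : wv (w ++ w') = wv w + wv w' := by simp [wv]

theorem wc_append (w w' : List ℕ) : wc (w ++ w') = wc w + wc w' := by simp [wc]

theorem enc_wv (w : List ℕ) : enc (wv w).1 = wc w := by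
  induction w with
  | nil => exact enc_zero
  | cons a w ih =>
    rw [wv_cons, wc_cons]
    show enc ((eN a).1 + (wv w).1) = _
    rw [enc_add, enc_eN, ih]

theorem wv_le (w : List ℕ) (i : Fin 7) : (wv w).1 i ≤ w.length := by
  induction w with
  | nil => simp [wv_nil]
  | cons a w ih =>
    rw [wv_cons]
    have := eN_le a i
    show (eN a).1 i + (wv w).1 i ≤ w.length + 1
    omega

theorem wv_eq_of_code {w w' : List ℕ} (h : w.length < 16) (h' : w'.length < 16)
    (e : wc w = wc w') : wv w = wv w' := by
  apply Subtype.ext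
  apply enc_inj
  · intro i; have := wv_le w i; omega
  · intro i; have := wv_le w' i; omega
  · rw [enc_wv, enc_wv, e]

/-- every element is the value of a word with letters `< 28` -/
theorem exists_word (l : Lam) : ∃ w : List ℕ, (∀ a ∈ w, a < 28) ∧ l = wv w := by
  obtain ⟨l, hl⟩ := l
  induction hl using AddSubmonoid.closure_induction with
  | mem x hx =>
    obtain ⟨b, rfl⟩ := hx
    refine ⟨[b.val], by simp [b.isLt], ?_⟩
    apply Subtype.ext
    simp [wv, eN, b.isLt, eL]
  | zero => exact ⟨[], by simp, rfl⟩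
  | add x y hx hy h1 h2 =>
    obtain ⟨w1, a1, e1⟩ := h1
    obtain ⟨w2, a2, e2⟩ := h2
    refine ⟨w1 ++ w2, ?_, ?_⟩
    · intro a ha
      rcases List.mem_append.1 ha with h | h
      · exact a1 a h
      · exact a2 a h
    · rw [wv_append, ← e1, ← e2]
      rfl

theorem code_mem {c : ℕ} (h : c ∈ codeL) : ∃ r < 28, code r = c := by
  obtain ⟨r, hr, e⟩ := List.mem_iff_getElem.1 h
  refine ⟨r, by simpa [codeL] using hr, ?_⟩
  unfold code
  rw [List.getD_eq_getElem _ _ hr, e]

/-- the codes, packed into one number with slots of 32 bits indexed by the residue mod 43 -/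
def bigC : ℕ := 99606894857279554328758435287117831846753414227402615150676295857792206179351396540262839467327642613909897610310112322116684014619557483305977087048238977298905137210566586813860924473411043522729196558056418400966415524036860637100635772338482149982868003697018142344125978240226045714626873768264352495784420006479618308937274935220413748827388603962552626434400604432174386961413589928446005346304

/-- content of a slot -/
def slotC (s : ℕ) : ℕ := (bigC >>> (32 * s)) % 4294967296

theorem slotC_spec : ∀ s : Fin 43, slotC s.val = 0 ∨ slotC s.val ∈ codeL := by decide +kernel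

/-- fast membership test in `codeL` -/
def inC (n : ℕ) : Bool := Nat.beq (slotC (n % 43)) n && Nat.ble 1 n

theorem inC_spec {n : ℕ} (h : inC n = true) : 1 ≤ n ∧ n ∈ codeL := by
  unfold inC at h
  rw [Bool.and_eq_true] at h
  obtain ⟨h1, h2⟩ := h
  have h1 := Nat.eq_of_beq_eq_true h1
  have h2 := Nat.le_of_ble_eq_true h2
  refine ⟨h2, ?_⟩
  rcases slotC_spec ⟨n % 43, Nat.mod_lt _ (by norm_num)⟩ with h3 | h3
  · change slotC (n % 43) = 0 at h3
    omega
  · change slotC (n % 43) ∈ codeL at h3
    rwa [h1] at h3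

/-- divisibility test for words -/
def dvw (w' w : List ℕ) : Bool :=
  Nat.blt w.length 16 && (Nat.blt w'.length 8 &&
  (match w.length - w'.length with
    | 0 => Nat.beq (wc w') (wc w)
    | 1 => inC (wc w - wc w')
    | 2 => codeL.any fun c => inC (wc w - wc w' - c)
    | _ => false))

theorem dvw_spec {w' w : List ℕ} (h : dvw w' w = true) : ∃ m : Lam, wv w = m + wv w' := by
  unfold dvw at h
  rw [Bool.and_eq_true, Bool.and_eq_true] at h
  obtain ⟨h1, h2, h3⟩ := h
  have h1 : w.length < 16 := by simpa [Nat.blt_eq] using h1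
  have h2 : w'.length < 8 := by simpa [Nat.blt_eq] using h2
  split at h3
  · have h3 := Nat.eq_of_beq_eq_true h3
    exact ⟨0, by rw [zero_add]; exact wv_eq_of_code h1 (by omega) h3.symm⟩
  · obtain ⟨h4, h5⟩ := inC_spec h3
    obtain ⟨r, hr, e⟩ := code_mem h5
    refine ⟨eN r, ?_⟩
    rw [← wv_cons]
    apply wv_eq_of_code h1 (by simp; omega)
    rw [wc_cons, e]
    omega
  · rw [List.any_eq_true] at h3
    obtain ⟨c, hc, e⟩ := h3
    obtain ⟨h4, h5⟩ := inC_spec e
    obtain ⟨r, hr, rfl⟩ := code_mem hc
    obtain ⟨r', hr', e'⟩ := code_mem h5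
    refine ⟨eN r + eN r', ?_⟩
    rw [add_assoc, ← wv_cons, ← wv_cons]
    apply wv_eq_of_code h1 (by simp; omega)
    rw [wc_cons, wc_cons, e']
    omega
  · exact absurd h3 (by simp)

end Pool.Agent.Helper56.Koszul
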