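import Mathlib
import Pool.Agent.Helper56.Koszul.Words

/-!
Facet functionals of the base polytope and generators of the sets of elements of `Lam` with
prescribed lower bounds on the facet functionals.
-/

namespace Pool.Agent.Helper56.Koszul

/-- three times the facet functionals: `3 a_i`, `3 (d - a_i)`, `3 (2 d - a(line))` -/
def coef (F : ℕ) (i : ℕ) : ℤ :=
  if F < 7 then (if i = F then 3 else 0)
  else if F < 14 then (if i = F - 7 then -2 else 1)
  else (if i = F - 14 ∨ i = (F - 13) % 7 ∨ i = (F - 11) % 7 then -1 else 2)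

/-- value of (three times) the facet functional -/
def n3 (F : ℕ) (l : Lam) : ℤ := ∑ i : Fin 7, coef F i.val * (l.1 i : ℤ)

theorem n3_add (F : ℕ) (l m : Lam) : n3 F (l + m) = n3 F l + n3 F m := by
  unfold n3
  rw [← Finset.sum_add_distrib]
  apply Finset.sum_congr rfl
  intro i _
  show coef F i.val * ((l.1 i + m.1 i : ℕ) : ℤ) = _
  push_cast
  ring

theorem n3_zero (F : ℕ) : n3 F 0 = 0 := by
  unfold n3
  apply Finset.sum_eq_zero
  intro i _
  show coef F i.val * ((0 : ℕ) : ℤ) = 0
  simp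

/-- facet distances of the bases, computed from the masks -/
def nfb (F : ℕ) (b : ℕ) : ℕ :=
  let m := bmList.getD b 0
  if b < 28 then
    if F < 7 then (if m.testBit F then 1 else 0)
    else if F < 14 then (if m.testBit (F - 7) then 0 else 1)
    else 2 - ((if m.testBit (F - 14) then 1 else 0) + (if m.testBit ((F - 13) % 7) then 1 else 0) +
      (if m.testBit ((F - 11) % 7) then 1 else 0))
  else 0

theorem n3_ev : ∀ F : Fin 21, ∀ b : Fin 28, n3 F.val (eL b) = 3 * (nfb F.val b.val : ℤ) := by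
  decide +kernel

theorem n3_eN {F : ℕ} (hF : F < 21) (b : ℕ) : n3 F (eN b) = 3 * (nfb F b : ℤ) := by
  unfold eN
  split_ifs with h
  · exact n3_ev ⟨F, hF⟩ ⟨b, h⟩
  · rw [n3_zero]
    unfold nfb
    simp [h]

/-- facet distance of a word -/
def nfw (F : ℕ) (w : List ℕ) : ℕ := (w.map (nfb F)).sum

theorem n3_wv {F : ℕ} (hF : F < 21) (w : List ℕ) : n3 F (wv w) = 3 * (nfw F w : ℤ) := by
  induction w with
  | nil => simp [wv_nil, n3_zero, nfw]
  | cons a w ih =>
    rw [wv_cons, n3_add, n3_eN hF, ih]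
    simp [nfw]
    ring

theorem n3_nonneg {F : ℕ} (hF : F < 21) (l : Lam) : 0 ≤ n3 F l := by
  obtain ⟨w, -, rfl⟩ := exists_word l
  rw [n3_wv hF]
  positivity

/-- an element with positive value of a facet functional contains a letter with positive value -/
theorem exists_letter {F : ℕ} (hF : F < 21) (l : Lam) (h : 0 < n3 F l) :
    ∃ b < 28, 0 < nfb F b ∧ ∃ m : Lam, l = m + eN b := by
  obtain ⟨w, hw, rfl⟩ := exists_word l
  rw [n3_wv hF] at h
  induction w with
  | nil => simp [nfw] at h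
  | cons a w ih =>
    by_cases ha : 0 < nfb F a
    · exact ⟨a, hw a (by simp), ha, wv w, by rw [wv_cons, add_comm]⟩
    · have h0 : nfb F a = 0 := by omega
      have : nfw F (a :: w) = nfw F w := by simp [nfw, h0]
      rw [this] at h
      obtain ⟨b, hb, hb0, m, e⟩ := ih (fun x hx => hw x (List.mem_cons_of_mem _ hx)) h
      exact ⟨b, hb, hb0, m + eN a, by rw [wv_cons, e]; abel⟩

/-- lower bounds on the facet functionals, given by a list of facets with multiplicity -/
def Sat (c : List ℕ) (l : Lam) : Prop := ∀ F < 21, (3 * (c.count F : ℤ)) ≤ n3 F l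

/-- all elements satisfying the bounds `c` are divisible by the value of a word of `G` -/
def GenP (c : List ℕ) (G : List (List ℕ)) : Prop :=
  ∀ l : Lam, Sat c l → ∃ w ∈ G, ∃ m : Lam, l = m + wv w

/-- for each facet, the letters with positive facet distance -/
def posL : List (List ℕ) := [
  [0, 1, 3, 4, 5, 8, 9, 11, 16, 18, 21, 24],
  [0, 2, 3, 6, 8, 10, 12, 13, 16, 17, 19, 22],
  [0, 1, 2, 4, 7, 9, 10, 14, 17, 20, 23, 25],
  [1, 2, 5, 6, 7, 11, 12, 15, 18, 19, 20, 26],
  [3, 4, 5, 6, 7, 13, 14, 15, 21, 22, 23, 27],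
  [8, 9, 10, 11, 12, 13, 14, 15, 24, 25, 26, 27],
  [16, 17, 18, 19, 20, 21, 22, 23, 24, 25, 26, 27],
  [2, 6, 7, 10, 12, 13, 14, 15, 17, 19, 20, 22, 23, 25, 26, 27],
  [1, 4, 5, 7, 9, 11, 14, 15, 18, 20, 21, 23, 24, 25, 26, 27],
  [3, 5, 6, 8, 11, 12, 13, 15, 16, 18, 19, 21, 22, 24, 26, 27],
  [0, 3, 4, 8, 9, 10, 13, 14, 16, 17, 21, 22, 23, 24, 25, 27],
  [0, 1, 2, 8, 9, 10, 11, 12, 16, 17, 18, 19, 20, 24, 25, 26],
  [0, 1, 2, 3, 4, 5, 6, 7, 16, 17, 18, 19, 20, 21, 22, 23],
  [0, 1, 2, 3, 4, 5, 6, 7, 8, 9, 10, 11, 12, 13, 14, 15],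
  [4, 7, 9, 10, 13, 14, 15, 17, 20, 21, 22, 23, 24, 25, 26, 27],
  [1, 5, 8, 9, 11, 12, 15, 16, 18, 19, 20, 21, 24, 25, 26, 27],
  [0, 3, 4, 5, 6, 8, 13, 16, 17, 18, 19, 21, 22, 23, 24, 27],
  [0, 1, 2, 3, 4, 8, 9, 10, 11, 12, 13, 14, 16, 17, 24, 25],
  [0, 1, 2, 6, 7, 10, 12, 16, 17, 18, 19, 20, 22, 23, 25, 26],
  [0, 1, 2, 3, 4, 5, 6, 7, 9, 11, 14, 15, 18, 20, 21, 23],
  [2, 3, 5, 6, 7, 8, 10, 11, 12, 13, 14, 15, 19, 22, 26, 27]]

theorem pos_ok : ∀ F : Fin 21, ∀ b : Fin 28, nfb F.val b.val = 0 ∨ b.val ∈ posL.getD F.val [] := by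
  decide +kernel

/-- the check for increasing one bound -/
def stepCheck (F cF : ℕ) (G G' : List (List ℕ)) : Bool :=
  Nat.blt F 21 && G.all fun w =>
    bif Nat.blt cF (nfw F w) then G'.any fun w' => dvw w' w
    else (posL.getD F []).all fun b => G'.any fun w' => dvw w' (b :: w)

theorem genP_step {c : List ℕ} {G G' : List (List ℕ)} {F : ℕ} (h : GenP c G)
    (hc : stepCheck F (c.count F) G G' = true) : GenP (F :: c) G' := by
  unfold stepCheck at hc
  rw [Bool.and_eq_true, List.all_eq_true] at hc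
  obtain ⟨hF, hc⟩ := hc
  have hF : F < 21 := by simpa [Nat.blt_eq] using hF
  intro l hl
  have hl' : Sat c l := by
    intro F' hF'
    have h1 := hl F' hF'
    have h2 : c.count F' ≤ (F :: c).count F' := by
      rw [List.count_cons]; omega
    have h3 : (c.count F' : ℤ) ≤ ((F :: c).count F' : ℤ) := by exact_mod_cast h2
    linarith
  obtain ⟨w, hw, m, e⟩ := h l hl'
  have h1 := hc w hw
  cases h2 : Nat.blt (c.count F) (nfw F w) with
  | true =>
    rw [h2, cond_true, List.any_eq_true] at h1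
    obtain ⟨w', hw', hd⟩ := h1
    obtain ⟨m', e'⟩ := dvw_spec hd
    exact ⟨w', hw', m + m', by rw [e, e', add_assoc]⟩
  | false =>
    rw [h2, cond_false] at h1
    have h2 : ¬ c.count F < nfw F w := by
      intro h6
      rw [← Nat.blt_eq, h2] at h6
      exact absurd h6 (by simp)
    have h3 := hl F hF
    rw [List.count_cons_self, e, n3_add, n3_wv hF] at h3
    have h4 : 0 < n3 F m := by
      push_cast at h3
      have : (nfw F w : ℤ) ≤ (c.count F : ℤ) := by exact_mod_cast not_lt.1 h2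
      linarith
    obtain ⟨b, hb, hb0, m', e'⟩ := exists_letter hF m h4
    rw [List.all_eq_true] at h1
    have hbp : b ∈ posL.getD F [] := by
      rcases pos_ok ⟨F, hF⟩ ⟨b, hb⟩ with h6 | h6
      · change nfb F b = 0 at h6
        omega
      · exact h6
    have h5 := h1 b hbp
    rw [List.any_eq_true] at h5
    obtain ⟨w', hw', hd⟩ := h5
    obtain ⟨m'', e''⟩ := dvw_spec hd
    rw [wv_cons] at e''
    exact ⟨w', hw', m' + m'', by rw [e, e', add_assoc, e'', add_assoc]⟩

/-- a node: bounds and generators -/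
structure Node where
  c : List ℕ
  g : List (List ℕ)

/-- check a list of nodes, each of which arises from a later one in the list -/
def chkNodes : List Node → Bool
  | [] => true
  | nd :: rest => chkNodes rest &&
    (match nd.c with
      | [] => nd.g == [[]]
      | F :: c' => rest.any fun p => p.c == c' && stepCheck F (c'.count F) p.g nd.g)

theorem genP_of_chk : ∀ (L : List Node), chkNodes L = true → ∀ nd ∈ L, GenP nd.c nd.g
  | [], _ => by simp
  | nd :: rest, h => by
    unfold chkNodes at h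
    rw [Bool.and_eq_true] at h
    obtain ⟨h1, h2⟩ := h
    have ih := genP_of_chk rest h1
    intro nd' hnd'
    rcases List.mem_cons.1 hnd' with rfl | hnd'
    · split at h2
      · rename_i hc
        rw [beq_iff_eq] at h2
        rw [hc, h2]
        intro l _
        exact ⟨[], by simp, l, by rw [wv_nil, add_zero]⟩
      · rename_i F c' hc
        rw [List.any_eq_true] at h2
        obtain ⟨p, hp, h3⟩ := h2
        rw [Bool.and_eq_true, beq_iff_eq] at h3
        obtain ⟨h3, h4⟩ := h3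
        have h5 := ih p hp
        rw [hc]
        rw [h3] at h5
        exact genP_step h5 h4
    · exact ih nd' hnd'

end Pool.Agent.Helper56.Koszul
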