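import Mathlib
import Pool.Agent.Helper56.Koszul.Gen
import Pool.Agent.Helper8.KZ.KZ1

/-!
Relations among variables, ideals of variables, and the colon step.
-/

namespace Pool.Agent.Helper56.Koszul

universe u

open Pool.Agent.Helper8.KZ

noncomputable section

variable (k : Type u) [Field k]

/-- relations among the variables, supported on the mask `U` -/
def KU (U : ℕ) : Submodule (SR k) (Fin 28 → SR k) where
  carrier := {f | (∀ b : Fin 28, U.testBit b.val = false → f b = 0) ∧ ∑ b, f b * xv k b = 0}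
  add_mem' := by
    rintro f g ⟨h1, h2⟩ ⟨h3, h4⟩
    refine ⟨fun b hb => by simp [h1 b hb, h3 b hb], ?_⟩
    simp [add_mul, Finset.sum_add_distrib, h2, h4]
  zero_mem' := by simp
  smul_mem' := by
    rintro c f ⟨h1, h2⟩
    refine ⟨fun b hb => by simp [h1 b hb], ?_⟩
    simp [mul_assoc, ← Finset.mul_sum, h2]

theorem mem_KU (U : ℕ) (f : Fin 28 → SR k) : f ∈ KU k U ↔
    (∀ b : Fin 28, U.testBit b.val = false → f b = 0) ∧ ∑ b, f b * xv k b = 0 := Iff.rfl

/-- the ideal generated by the variables of the mask `V`, as a submodule of `S^1` -/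
def IV (V : ℕ) : Submodule (SR k) (Fin 1 → SR k) :=
  Submodule.span (SR k) {y | ∃ b : Fin 28, V.testBit b.val = true ∧ y = fun _ => xv k b}

/-- divisibility by a variable of the mask `V` -/
def DvV (V : ℕ) (l : Lam) : Prop :=
  ∃ b : Fin 28, V.testBit b.val = true ∧ ∃ m : Lam, l = m + eL b

variable {k}

theorem mem_span_iff (V : ℕ) (x : SR k) :
    x ∈ Ideal.span (AddMonoidAlgebra.of' k Lam '' {l | ∃ b : Fin 28, V.testBit b.val = true ∧
      l = eL b}) ↔ ∀ l, x.coeff l ≠ 0 → DvV V l := by
  rw [AddMonoidAlgebra.mem_ideal_span_of'_image]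
  constructor
  · intro h l hl
    obtain ⟨m', ⟨b, hb, rfl⟩, d, e⟩ := h l (Finsupp.mem_support_iff.2 hl)
    exact ⟨b, hb, d, e⟩
  · intro h l hl
    obtain ⟨b, hb, d, e⟩ := h l (Finsupp.mem_support_iff.1 hl)
    exact ⟨eL b, ⟨b, hb, rfl⟩, d, e⟩

theorem mem_IV (V : ℕ) (y : Fin 1 → SR k) :
    y ∈ IV k V ↔ ∀ l, (y 0).coeff l ≠ 0 → DvV V l := by
  rw [← mem_span_iff]
  constructor
  · intro hy
    have : (IV k V).map (LinearMap.proj (R := SR k) (φ := fun _ : Fin 1 => SR k) 0) ≤
        Ideal.span (AddMonoidAlgebra.of' k Lam '' {l | ∃ b : Fin 28, V.testBit b.val = true ∧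
          l = eL b}) := by
      unfold IV
      rw [Submodule.map_span, Submodule.span_le]
      rintro _ ⟨_, ⟨b, hb, rfl⟩, rfl⟩
      exact Ideal.subset_span ⟨eL b, ⟨b, hb, rfl⟩, rfl⟩
    exact this ⟨y, hy, rfl⟩
  · intro hy
    have e : y = (LinearMap.pi fun _ : Fin 1 => (LinearMap.id : SR k →ₗ[SR k] SR k)) (y 0) := by
      funext i
      fin_cases i
      rfl
    have : Submodule.map (LinearMap.pi fun _ : Fin 1 => (LinearMap.id : SR k →ₗ[SR k] SR k))
        (Ideal.span (AddMonoidAlgebra.of' k Lam '' {l | ∃ b : Fin 28, V.testBit b.val = true ∧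
          l = eL b})) ≤ IV k V := by
      unfold Ideal.span
      rw [Submodule.map_span, Submodule.span_le]
      rintro _ ⟨_, ⟨_, ⟨b, hb, rfl⟩, rfl⟩, rfl⟩
      exact Submodule.subset_span ⟨b, hb, rfl⟩
    rw [e]
    exact this ⟨y 0, hy, rfl⟩

theorem xv_mem_S1 (b : Fin 28) : xv k b ∈ S1 k := by
  intro l hl
  unfold xv at hl
  rw [AddMonoidAlgebra.coeff_single] at hl
  have : eL b = l := by
    by_contra hne
    exact hl (Finsupp.single_eq_of_ne (Ne.symm hne))
  rw [← this]
  have : ∀ b : Fin 28, tdeg (eL b) = 3 := by decide +kernel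
  exact this b

theorem xv_mul (a b : Fin 28) :
    xv k a * xv k b = AddMonoidAlgebra.single (eL a + eL b) 1 := by
  unfold xv
  rw [AddMonoidAlgebra.single_mul_single, one_mul]

theorem coeff_mul_xv (f : SR k) (b : Fin 28) (l : Lam) :
    (f * xv k b).coeff (l + eL b) = f.coeff l := by
  unfold xv
  rw [AddMonoidAlgebra.coeff_mul_single_add, mul_one]

theorem mul_xv_cancel {f g : SR k} {b : Fin 28} (h : f * xv k b = g * xv k b) : f = g := by
  ext l
  rw [← coeff_mul_xv f b l, h, coeff_mul_xv]

/-- support of a multiple of a variable -/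
theorem exists_of_coeff_mul_xv {f : SR k} {b : Fin 28} {l : Lam}
    (h : (f * xv k b).coeff l ≠ 0) : ∃ m : Lam, l = m + eL b := by
  by_contra hne
  push Not at hne
  apply h
  unfold xv
  exact AddMonoidAlgebra.coeff_mul_single_of_forall_add_ne _ _ fun d hd => hne d hd.symm

/-- the facts on the colon ideal `(I_{U'} : x_b) = I_V` -/
structure Colon (b : Fin 28) (U' V : ℕ) : Prop where
  c1 : ∀ (u : Fin 28) (l m : Lam), U'.testBit u.val = true → l + eL b = m + eL u → DvV V l
  c2 : ∀ v : Fin 28, V.testBit v.val = true → ∃ u w : Fin 28, U'.testBit u.val = true ∧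
    eL v + eL b = eL w + eL u

/-- linearity of the relations among the variables of `U` -/
def AA (k : Type u) [Field k] (n U : ℕ) : Prop := Lin (S1 k) n (Fin 28) (KU k U)

theorem KU_p1 (D : GrData (SR k)) (hD : D.S1 = S1 k) (U : ℕ) (f : Fin 28 → SR k)
    (hf : f ∈ KU k U) : (fun i => D.p1 (f i)) ∈ KU k U := by
  obtain ⟨h1, h2⟩ := hf
  refine ⟨fun b hb => by simp [h1 b hb], ?_⟩
  have h3 := congrArg D.p2 h2
  rw [map_sum, map_zero] at h3
  rw [← h3]
  apply Finset.sum_congr rfl
  intro b _
  rw [mul_comm (f b), D.p2_mul _ (by rw [hD]; exact xv_mem_S1 b), mul_comm]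

theorem AA_step (D : GrData (SR k)) (hD : D.S1 = S1 k) (n : ℕ) (b : Fin 28) (U' U V : ℕ)
    (hU : ∀ c : Fin 28, U.testBit c.val = (U'.testBit c.val || decide (c = b)))
    (hb : U'.testBit b.val = false) (hc : Colon b U' V)
    (h1 : AA k n U') (h2 : Lin (S1 k) n (Fin 1) (IV k V)) : AA k n U := by
  unfold AA at *
  rw [← hD] at h1 h2 ⊢
  refine Lin.glue D n (fun _ : Fin 1 => b) (KU k U) (KU k U') (IV k V)
    (KU_p1 D hD U) ?_ ?_ h1 h2
  · intro f
    rw [mem_KU, mem_KU]
    constructor
    · rintro ⟨h3, h4⟩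
      refine ⟨⟨fun c hcc => h3 c ?_, h4⟩, fun _ => h3 b hb⟩
      rw [hU, Bool.or_eq_false_iff] at hcc
      exact hcc.1
    · rintro ⟨⟨h3, h4⟩, h5⟩
      refine ⟨fun c hcc => ?_, h4⟩
      by_cases hcb : c = b
      · rw [hcb]; exact h5 0
      · apply h3
        rw [hU, hcc]
        simp [hcb]
  · intro y
    constructor
    · intro hy
      have key : IV k V ≤ (KU k U).map (LinearMap.pi fun _ : Fin 1 =>
          (LinearMap.proj (R := SR k) (φ := fun _ : Fin 28 => SR k) b)) := by
        unfold IV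
        rw [Submodule.span_le]
        rintro _ ⟨v, hv, rfl⟩
        obtain ⟨u, w, hu, e⟩ := hc.c2 v hv
        have hub : u ≠ b := by
          rintro rfl
          rw [hu] at hb
          exact absurd hb (by simp)
        refine ⟨Pi.single b (xv k v) - Pi.single u (xv k w), ⟨?_, ?_⟩, ?_⟩
        · intro c hcc
          rw [hU, Bool.or_eq_false_iff] at hcc
          have hcb : c ≠ b := by simpa using hcc.2
          have hcu : c ≠ u := by
            rintro rfl
            rw [hu] at hcc
            exact absurd hcc.1 (by simp)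
          simp [Pi.single_eq_of_ne hcb, Pi.single_eq_of_ne hcu]
        · simp only [Pi.sub_apply, sub_mul, Finset.sum_sub_distrib]
          rw [Finset.sum_eq_single b, Finset.sum_eq_single u]
          · rw [Pi.single_eq_same, Pi.single_eq_same, xv_mul, xv_mul, e, sub_self]
          · intro c _ hcu; rw [Pi.single_eq_of_ne hcu, zero_mul]
          · intro h; exact absurd (Finset.mem_univ _) h
          · intro c _ hcb; rw [Pi.single_eq_of_ne hcb, zero_mul]
          · intro h; exact absurd (Finset.mem_univ _) h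
        · funext i
          simp [Pi.single_eq_of_ne (Ne.symm hub)]
      obtain ⟨f, hf, e⟩ := key hy
      exact ⟨f, hf, e⟩
    · rintro ⟨f, ⟨h3, h4⟩, rfl⟩
      rw [mem_IV]
      intro l hl
      have h5 : (f b * xv k b).coeff (l + eL b) ≠ 0 := by rwa [coeff_mul_xv]
      have h6 : ∃ u : Fin 28, u ≠ b ∧ (f u * xv k u).coeff (l + eL b) ≠ 0 := by
        by_contra hne
        push Not at hne
        apply h5
        have h7 := congrArg (fun x => x.coeff (l + eL b)) h4
        simp only [AddMonoidAlgebra.coeff_sum, Finsupp.finsetSum_apply,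
          AddMonoidAlgebra.coeff_zero, Finsupp.coe_zero, Pi.zero_apply] at h7
        rw [Finset.sum_eq_single b (fun u _ hu => hne u hu)
          (fun h => absurd (Finset.mem_univ _) h)] at h7
        exact h7
      obtain ⟨u, hub, h7⟩ := h6
      obtain ⟨m, e⟩ := exists_of_coeff_mul_xv h7
      refine hc.c1 u l m ?_ e
      by_contra hu
      have hu : U'.testBit u.val = false := by simpa using hu
      have h8 : f u = 0 := h3 u (by rw [hU, hu]; simp [hub])
      rw [h8, zero_mul] at h7
      exact h7 rfl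

/-- an ideal of variables is generated by elements of degree one -/
theorem lin_IV_gens (V : ℕ) : Submodule.span (SR k)
    (Set.range fun (b : {b : Fin 28 // V.testBit b.val = true}) (_ : Fin 1) => xv k b.1) =
    IV k V := by
  unfold IV
  congr 1
  ext y
  constructor
  · rintro ⟨b, rfl⟩
    exact ⟨b.1, b.2, rfl⟩
  · rintro ⟨b, hb, rfl⟩
    exact ⟨⟨b, hb⟩, rfl⟩

theorem lin_IV_zero (V : ℕ) : Lin (S1 k) 0 (Fin 1) (IV k V) :=
  ⟨{b : Fin 28 // V.testBit b.val = true}, inferInstance, fun b _ => xv k b.1,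
    fun b _ => xv_mem_S1 b.1, lin_IV_gens V⟩

theorem lin_IV_succ (n V : ℕ) (h : AA k n V) : Lin (S1 k) (n + 1) (Fin 1) (IV k V) := by
  refine ⟨{b : Fin 28 // V.testBit b.val = true}, inferInstance, fun b _ => xv k b.1,
    fun b _ => xv_mem_S1 b.1, lin_IV_gens V, ?_⟩
  let Θ : (Fin 28 → SR k) →ₗ[SR k] ({b : Fin 28 // V.testBit b.val = true} → SR k) :=
    LinearMap.pi fun b => LinearMap.proj b.1
  have hsum : ∀ f : Fin 28 → SR k, (∀ b : Fin 28, V.testBit b.val = false → f b = 0) →
      ∑ b : {b : Fin 28 // V.testBit b.val = true}, f b.1 * xv k b.1 = ∑ b, f b * xv k b := by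
    intro f hf
    rw [← Finset.sum_subtype (Finset.univ.filter fun b : Fin 28 => V.testBit b.val = true)
      (by simp) (fun b => f b * xv k b)]
    apply Finset.sum_subset (Finset.filter_subset _ _)
    intro b _ hb
    have hb' : V.testBit b.val = false := by simpa using hb
    rw [hf b hb', zero_mul]
  have hmap : (KU k V).map Θ = Ker fun (b : {b : Fin 28 // V.testBit b.val = true})
      (_ : Fin 1) => xv k b.1 := by
    ext y
    constructor
    · rintro ⟨f, ⟨h3, h4⟩, rfl⟩ i
      show ∑ b : {b : Fin 28 // V.testBit b.val = true}, f b.1 * xv k b.1 = 0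
      rw [hsum f h3, h4]
    · intro hy
      have hy0 : ∑ b : {b : Fin 28 // V.testBit b.val = true}, y b * xv k b.1 = 0 := hy 0
      let f : Fin 28 → SR k := fun b => if hb : V.testBit b.val = true then y ⟨b, hb⟩ else 0
      have hf : ∀ b : Fin 28, V.testBit b.val = false → f b = 0 := by
        intro b hb
        simp [f, hb]
      have hfy : ∀ b : {b : Fin 28 // V.testBit b.val = true}, f b.1 = y b := by
        intro b
        simp [f, b.2]
      refine ⟨f, ⟨hf, ?_⟩, ?_⟩
      · rw [← hsum f hf]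
        simp only [hfy]
        exact hy0
      · funext b
        exact hfy b
  rw [← hmap]
  refine Lin.map (S1 k) n (KU k V) Θ ?_ ?_ h
  · rintro f ⟨h3, h4⟩ h5
    funext b
    by_cases hb : V.testBit b.val = true
    · exact congrFun h5 ⟨b, hb⟩
    · exact h3 b (by simpa using hb)
  · intro f _ h6 i
    exact h6 i.1

end

end Pool.Agent.Helper56.Koszul
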