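import Mathlib
import Pool.Agent.Helper56.Koszul.ColonA
import Pool.Agent.Helper40.KZ.KZ2

/-!
Symmetries of the Fano plane acting on the base ring.
-/

namespace Pool.Agent.Helper56.Koszul

universe u

/-- a symmetry: a permutation of the points and the induced permutation of the bases -/
structure Sy where
  s : Equiv.Perm (Fin 7)
  p : Equiv.Perm (Fin 28)
  h : ∀ b i, ev (p b) (s i) = ev b i

/-- the inverse symmetry -/
def Sy.inv (σ : Sy) : Sy where
  s := σ.s.symm
  p := σ.p.symm
  h := by
    intro b i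
    have := σ.h (σ.p.symm b) (σ.s.symm i)
    simpa using this.symm

theorem Sy.mem (σ : Sy) {f : Fin 7 → ℕ} (hf : f ∈ Lam) : (fun i => f (σ.s.symm i)) ∈ Lam := by
  induction hf using AddSubmonoid.closure_induction with
  | mem x hx =>
    obtain ⟨b, rfl⟩ := hx
    have : (fun i => ev b (σ.s.symm i)) = ev (σ.p b) := by
      funext i
      have := σ.h b (σ.s.symm i)
      simpa using this.symm
    rw [this]
    exact ev_mem _
  | zero => exact Lam.zero_mem
  | add x y hx hy h1 h2 => exact Lam.add_mem h1 h2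

/-- the action on the monoid -/
def Sy.act (σ : Sy) : Lam ≃+ Lam where
  toFun l := ⟨fun i => l.1 (σ.s.symm i), σ.mem l.2⟩
  invFun l := ⟨fun i => l.1 (σ.s i), by
    have := σ.inv.mem l.2
    simpa [Sy.inv] using this⟩
  left_inv l := by
    apply Subtype.ext
    funext i
    simp
  right_inv l := by
    apply Subtype.ext
    funext i
    simp
  map_add' l m := by
    apply Subtype.ext
    funext i
    rfl

theorem Sy.act_eL (σ : Sy) (b : Fin 28) : σ.act (eL b) = eL (σ.p b) := by
  apply Subtype.ext
  funext i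
  have := σ.h b (σ.s.symm i)
  simp only [Equiv.apply_symm_apply] at this
  exact this.symm

theorem Sy.tdeg_act (σ : Sy) (l : Lam) : tdeg (σ.act l) = tdeg l := by
  unfold tdeg
  exact Equiv.sum_comp σ.s.symm fun i => l.1 i

noncomputable section

variable (k : Type u) [Field k]

/-- the action on the base ring -/
def Sy.ring (σ : Sy) : SR k ≃+* SR k := AddMonoidAlgebra.mapDomainRingEquiv k σ.act

theorem Sy.ring_xv (σ : Sy) (b : Fin 28) : σ.ring k (xv k b) = xv k (σ.p b) := by
  unfold Sy.ring xv
  rw [AddMonoidAlgebra.mapDomainRingEquiv_single, σ.act_eL]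

theorem Sy.ring_coeff (σ : Sy) (x : SR k) (l : Lam) :
    (σ.ring k x).coeff l = x.coeff (σ.act.symm l) := by
  unfold Sy.ring
  rw [AddMonoidAlgebra.coeff_mapDomainRingEquiv]
  rfl

theorem Sy.ring_S1 (σ : Sy) (x : SR k) (hx : x ∈ S1 k) : σ.ring k x ∈ S1 k := by
  intro l hl
  rw [σ.ring_coeff k] at hl
  have := hx _ hl
  rw [← this, ← σ.tdeg_act (σ.act.symm l)]
  simp

/-- test that the mask `U'` is the image of the mask `U` -/
def Sy.imgOK (σ : Sy) (U U' : ℕ) : Prop :=
  ∀ b : Fin 28, U'.testBit (σ.p b).val = U.testBit b.val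

theorem Sy.AA (σ : Sy) (n U U' : ℕ) (hU : σ.imgOK U U') (h : AA k n U) : AA k n U' := by
  unfold Koszul.AA at *
  let Θ : (Fin 28 → SR k) →+ (Fin 28 → SR k) :=
    { toFun := fun f b => σ.ring k (f (σ.p.symm b))
      map_zero' := by funext b; simp
      map_add' := by intro f g; funext b; simp }
  have hΘ : ∀ f b, Θ f b = σ.ring k (f (σ.p.symm b)) := fun _ _ => rfl
  refine Pool.Agent.Helper40.KZ.Lin_transport (σ.ring k) (S1 k) (S1 k) (σ.ring_S1 k) n (KU k U) (KU k U') Θ
    ?_ ?_ ?_ ?_ h
  · intro c f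
    funext b
    simp [hΘ]
  · intro f _ h0
    funext b
    have := congrFun h0 (σ.p b)
    rw [hΘ, Equiv.symm_apply_apply] at this
    simpa using this
  · intro f _ h1 b
    exact σ.ring_S1 k _ (h1 _)
  · intro y
    have hsum : ∀ f : Fin 28 → SR k, ∑ b, Θ f b * xv k b = σ.ring k (∑ b, f b * xv k b) := by
      intro f
      rw [map_sum, ← Equiv.sum_comp σ.p]
      apply Finset.sum_congr rfl
      intro b _
      rw [hΘ, Equiv.symm_apply_apply, map_mul, σ.ring_xv k]
    constructor
    · rintro ⟨h1, h2⟩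
      let x : Fin 28 → SR k := fun b => (σ.ring k).symm (y (σ.p b))
      have hx : Θ x = y := by
        funext b
        rw [hΘ]
        simp [x]
      refine ⟨x, ⟨?_, ?_⟩, hx⟩
      · intro b hb
        have := h1 (σ.p b) (by rw [hU b]; exact hb)
        simp [x, this]
      · have := hsum x
        rw [hx, h2] at this
        exact (map_eq_zero_iff _ (σ.ring k).injective).1 this.symm
    · rintro ⟨x, ⟨h1, h2⟩, rfl⟩
      refine ⟨?_, ?_⟩
      · intro b hb
        have h3 := hU (σ.p.symm b)
        rw [Equiv.apply_symm_apply, hb] at h3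
        rw [hΘ, h1 _ h3.symm, map_zero]
      · rw [hsum, h2, map_zero]

end

end Pool.Agent.Helper56.Koszul
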