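import Mathlib
import Pool.Agent.Helper56.Koszul.Sym
import Pool.Agent.Helper56.Koszul.Data

/-!
The family of sets of variables: checks and induction.
-/

namespace Pool.Agent.Helper56.Koszul

universe u

/-! ### bounds -/

theorem nodes_ok : chkNodes nodesL = true := by decide +kernel

/-- the bounds `c` follow from `l + b = m + u` and `l + b = m' + u'` -/
def bndB (c b u u' : List ℕ) : Bool :=
  (List.range 21).all fun F => Nat.beq (c.count F) 0 ||
    (Nat.ble (c.count F + nfw F b) (nfw F u) || Nat.ble (c.count F + nfw F b) (nfw F u'))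

theorem sat_of {c b u u' : List ℕ} (h : bndB c b u u' = true) {l m m' : Lam}
    (e : l + wv b = m + wv u) (e' : l + wv b = m' + wv u') : Sat c l := by
  intro F hF
  unfold bndB at h
  rw [List.all_eq_true] at h
  have h1 := h F (List.mem_range.2 hF)
  rw [Bool.or_eq_true, Bool.or_eq_true] at h1
  have h2 := n3_nonneg hF l
  have key : ∀ (v : List ℕ) (x : Lam), l + wv b = x + wv v →
      c.count F + nfw F b ≤ nfw F v → 3 * (c.count F : ℤ) ≤ n3 F l := by
    intro v x ex hx
    have h3 := congrArg (n3 F) ex
    rw [n3_add, n3_add, n3_wv hF, n3_wv hF] at h3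
    have h4 := n3_nonneg hF x
    have h5 : (c.count F : ℤ) + nfw F b ≤ nfw F v := by exact_mod_cast hx
    linarith
  rcases h1 with h1 | h1 | h1
  · have := Nat.eq_of_beq_eq_true h1
    rw [this]
    simpa using h2
  · exact key u m e (Nat.le_of_ble_eq_true h1)
  · exact key u' m' e' (Nat.le_of_ble_eq_true h1)

theorem eN_eq_eL {v : ℕ} (h : v < 28) : eN v = eL ⟨v, h⟩ := by
  unfold eN
  rw [dif_pos h]

theorem wv_single (v : ℕ) : wv [v] = eN v := by simp [wv]

theorem eN_val (b : Fin 28) : eN b.val = eL b := eN_eq_eL b.isLt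

/-- equality of lists of numbers -/
def eqL : List ℕ → List ℕ → Bool
  | [], [] => true
  | a :: l, b :: m => Nat.beq a b && eqL l m
  | _, _ => false

theorem eqL_spec : ∀ {l m : List ℕ}, eqL l m = true → l = m
  | [], [], _ => rfl
  | a :: l, b :: m, h => by
    unfold eqL at h
    rw [Bool.and_eq_true] at h
    rw [Nat.eq_of_beq_eq_true h.1, eqL_spec h.2]
  | [], b :: m, h => by simp [eqL] at h
  | a :: l, [], h => by simp [eqL] at h

/-- all letters of the mask `m` divide the word `w` -/
def mOK (m : ℕ) (w : List ℕ) : Bool := (List.range 28).all fun v => !(m.testBit v) || dvw [v] w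

/-- masks and words correspond -/
def allMasks : List ℕ → List (List ℕ) → Bool
  | [], [] => true
  | m :: ms, w :: ws => mOK m w && allMasks ms ws
  | _, _ => false

theorem allMasks_spec : ∀ {ms : List ℕ} {ws : List (List ℕ)}, allMasks ms ws = true →
    ∀ w ∈ ws, ∃ m ∈ ms, mOK m w = true
  | [], [], _ => by simp
  | m :: ms, w :: ws, h => by
    unfold allMasks at h
    rw [Bool.and_eq_true] at h
    intro w' hw'
    rcases List.mem_cons.1 hw' with rfl | hw'
    · exact ⟨m, by simp, h.1⟩
    · obtain ⟨m', hm', h'⟩ := allMasks_spec h.2 w' hw'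
      exact ⟨m', List.mem_cons_of_mem _ hm', h'⟩
  | [], w :: ws, h => by simp [allMasks] at h
  | m :: ms, [], _ => by simp

/-- the check of the table `aTab` -/
def aChk (u : ℕ) : Bool := nodesL.any fun nd =>
  eqL nd.c (aTab.getD u ([], [])).1 && (bndB nd.c [0] [u] [u] &&
    allMasks (aTab.getD u ([], [])).2 nd.g)

theorem aTab_ok : ((List.range 27).all fun u => aChk (u + 1)) = true := by decide +kernel

theorem aTab_spec {u : ℕ} (h0 : 0 < u) (h28 : u < 28) {l m : Lam} (e : l + eN 0 = m + eN u) :
    ∃ mk ∈ (aTab.getD u ([], [])).2, ∀ v : Fin 28, mk.testBit v.val = true →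
      ∃ m' : Lam, l = m' + eL v := by
  have h1 := aTab_ok
  rw [List.all_eq_true] at h1
  have h2 := h1 (u - 1) (List.mem_range.2 (by omega))
  rw [Nat.sub_add_cancel h0] at h2
  unfold aChk at h2
  rw [List.any_eq_true] at h2
  obtain ⟨nd, hnd, h3⟩ := h2
  rw [Bool.and_eq_true, Bool.and_eq_true] at h3
  obtain ⟨-, h4, h5⟩ := h3
  have e' : l + wv [0] = m + wv [u] := by rw [wv_single, wv_single]; exact e
  obtain ⟨w, hw, m', e''⟩ := genP_of_chk _ nodes_ok nd hnd l (sat_of h4 e' e')
  obtain ⟨mk, hmk, h6⟩ := allMasks_spec h5 w hw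
  refine ⟨mk, hmk, fun v hv => ?_⟩
  unfold mOK at h6
  rw [List.all_eq_true] at h6
  have h7 := h6 v.val (List.mem_range.2 v.isLt)
  rw [hv, Bool.not_true, Bool.false_or] at h7
  obtain ⟨m'', e3⟩ := dvw_spec h7
  rw [wv_single, eN_val] at e3
  exact ⟨m' + m'', by rw [e'', e3, add_assoc]⟩

/-- the check of the table `dTab` -/
def dChk (u v : ℕ) : Bool := !((dTab.getD u 0).testBit v) || inC (code v + code 0 - code u)

theorem dTab_ok : ((List.range 28).all fun u => (List.range 28).all fun v => dChk u v) = true := by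
  decide +kernel

theorem dTab_spec (u v : Fin 28) (h : (dTab.getD u.val 0).testBit v.val = true) :
    ∃ w : Fin 28, eL v + eL 0 = eL w + eL u := by
  have h1 := dTab_ok
  rw [List.all_eq_true] at h1
  have h2 := h1 u.val (List.mem_range.2 u.isLt)
  rw [List.all_eq_true] at h2
  have h3 := h2 v.val (List.mem_range.2 v.isLt)
  unfold dChk at h3
  rw [h, Bool.not_true, Bool.false_or] at h3
  obtain ⟨h4, h5⟩ := inC_spec h3
  obtain ⟨r, hr, e⟩ := code_mem h5
  refine ⟨⟨r, hr⟩, ?_⟩
  have h6 : wv [v.val, 0] = wv [r, u.val] := by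
    apply wv_eq_of_code (by simp) (by simp)
    simp only [wc_cons]
    rw [e]
    have : wc [] = 0 := rfl
    rw [this]
    omega
  simp only [wv_cons, wv_nil, add_zero] at h6
  rw [eN_val, eN_val, eN_eq_eL hr] at h6
  exact h6

/-! ### the colon check -/

theorem exists_bit {x : ℕ} (h : Nat.beq (x % 268435456) 0 = false) :
    ∃ v : Fin 28, x.testBit v.val = true := by
  by_contra hne
  push Not at hne
  have : x % 268435456 = 0 := by
    apply Nat.eq_of_testBit_eq
    intro i
    rw [show (268435456 : ℕ) = 2 ^ 28 by norm_num, Nat.testBit_mod_two_pow, Nat.zero_testBit]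
    by_cases hi : i < 28
    · have := hne ⟨i, hi⟩
      simp only [ne_eq, Bool.not_eq_true] at this
      rw [this, Bool.and_false]
    · simp [hi]
  rw [this] at h
  exact absurd h (by decide)

/-- check of the colon ideal `(I_{U'} : x_0) = I_V` -/
def colChk (U' V : ℕ) : Bool :=
  ((List.range 28).all fun u => !(U'.testBit u) ||
    ((aTab.getD u ([], [])).2.all fun mk => !(Nat.beq ((mk &&& V) % 268435456) 0))) &&
  ((List.range 28).all fun v => !(V.testBit v) ||
    ((List.range 28).any fun u => U'.testBit u && (dTab.getD u 0).testBit v))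

theorem colon_of_chk {U' V : ℕ} (h0 : U'.testBit 0 = false) (h : colChk U' V = true) :
    Colon 0 U' V := by
  unfold colChk at h
  rw [Bool.and_eq_true, List.all_eq_true, List.all_eq_true] at h
  obtain ⟨h1, h2⟩ := h
  constructor
  · intro u l m hu e
    have hu0 : 0 < u.val := by
      rcases Nat.eq_zero_or_pos u.val with h | h
      · rw [h, h0] at hu
        exact absurd hu (by simp)
      · exact h
    have e' : l + eN 0 = m + eN u.val := by
      rw [eN_val]
      exact e
    obtain ⟨mk, hmk, h3⟩ := aTab_spec hu0 u.isLt e'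
    have h4 := h1 u.val (List.mem_range.2 u.isLt)
    rw [hu, Bool.not_true, Bool.false_or, List.all_eq_true] at h4
    have h5 := h4 mk hmk
    rw [Bool.not_eq_true'] at h5
    obtain ⟨v, hv⟩ := exists_bit h5
    rw [Nat.testBit_and, Bool.and_eq_true] at hv
    exact ⟨v, hv.2, h3 v hv.1⟩
  · intro v hv
    have h3 := h2 v.val (List.mem_range.2 v.isLt)
    rw [hv, Bool.not_true, Bool.false_or, List.any_eq_true] at h3
    obtain ⟨u, hu, h4⟩ := h3
    rw [Bool.and_eq_true] at h4
    have hu := List.mem_range.1 hu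
    obtain ⟨w, e⟩ := dTab_spec ⟨u, hu⟩ v h4.2
    exact ⟨⟨u, hu⟩, w, h4.1, e⟩

/-! ### symmetries -/

def gp0i : List ℕ := [16, 17, 0, 18, 19, 20, 1, 2, 21, 22, 3, 23, 4, 5, 6, 7, 24, 8, 25, 9, 10, 26, 11, 12, 27, 13, 14, 15]
def gp1i : List ℕ := [3, 8, 13, 4, 0, 9, 14, 10, 21, 16, 22, 24, 27, 23, 17, 25, 5, 6, 11, 15, 12, 1, 7, 2, 18, 19, 26, 20]

def sy0 : Sy where
  s := ⟨fun i => i + 1, fun i => i + 6, by decide, by decide⟩
  p := ⟨fun b => Fin.ofNat 28 (gp0.getD b.val 0), fun b => Fin.ofNat 28 (gp0i.getD b.val 0),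
    by unfold Function.LeftInverse; decide +kernel,
    by unfold Function.RightInverse Function.LeftInverse; decide +kernel⟩
  h := by decide +kernel

def sy1 : Sy where
  s := ⟨fun i => 2 * i, fun i => 4 * i, by decide, by decide⟩
  p := ⟨fun b => Fin.ofNat 28 (gp1.getD b.val 0), fun b => Fin.ofNat 28 (gp1i.getD b.val 0),
    by unfold Function.LeftInverse; decide +kernel,
    by unfold Function.RightInverse Function.LeftInverse; decide +kernel⟩
  h := by decide +kernel

def sy2 : Sy where
  s := ⟨![1, 0, 2, 3, 6, 5, 4], ![1, 0, 2, 3, 6, 5, 4], by decide, by decide⟩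
  p := ⟨fun b => Fin.ofNat 28 (gp2.getD b.val 0), fun b => Fin.ofNat 28 (gp2.getD b.val 0),
    by unfold Function.LeftInverse; decide +kernel,
    by unfold Function.RightInverse Function.LeftInverse; decide +kernel⟩
  h := by decide +kernel

/-- the three generators -/
def sy (g : ℕ) : Sy := if g = 0 then sy0 else if g = 1 then sy1 else sy2

/-- their permutations of the bases -/
def gpL (g : ℕ) : List ℕ := bif Nat.beq g 0 then gp0 else bif Nat.beq g 1 then gp1 else gp2

theorem gpL_spec (g : ℕ) (b : Fin 28) : ((sy g).p b).val = (gpL g).getD b.val 0 := by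
  have h0 : ∀ b : Fin 28, (sy0.p b).val = gp0.getD b.val 0 := by decide +kernel
  have h1 : ∀ b : Fin 28, (sy1.p b).val = gp1.getD b.val 0 := by decide +kernel
  have h2 : ∀ b : Fin 28, (sy2.p b).val = gp2.getD b.val 0 := by decide +kernel
  unfold sy gpL
  by_cases g0 : g = 0
  · subst g0
    simpa using h0 b
  · have e0 : Nat.beq g 0 = false := by
      rw [← Bool.not_eq_true]
      intro h
      exact g0 (Nat.eq_of_beq_eq_true h)
    rw [if_neg g0, e0, cond_false]
    by_cases g1 : g = 1
    · subst g1
      simpa using h1 b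
    · have e1 : Nat.beq g 1 = false := by
        rw [← Bool.not_eq_true]
        intro h
        exact g1 (Nat.eq_of_beq_eq_true h)
      rw [if_neg g1, e1, cond_false]
      exact h2 b

/-- image of a mask (its correctness is checked separately) -/
def imgG (p : List ℕ) (U : ℕ) : ℕ :=
  (List.range 28).foldl (fun a b => bif U.testBit b then a + 2 ^ (p.getD b 0) else a) 0

/-- check that `U'` is the image of `U` -/
def imgChk (p : List ℕ) (U U' : ℕ) : Bool :=
  (List.range 28).all fun b => U'.testBit (p.getD b 0) == U.testBit b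

/-- check that `V` is the image of `U` under a word in the generators -/
def reach : List ℕ → ℕ → ℕ → Bool
  | [], U, V => Nat.beq U V
  | g :: w, U, V => imgChk (gpL g) U (imgG (gpL g) U) && reach w (imgG (gpL g) U) V

theorem AA_reach (k : Type u) [Field k] (n : ℕ) : ∀ (w : List ℕ) (U V : ℕ),
    reach w U V = true → AA k n U → AA k n V
  | [], U, V, h, hU => by
    have := Nat.eq_of_beq_eq_true h
    rwa [← this]
  | g :: w, U, V, h, hU => by
    unfold reach at h
    rw [Bool.and_eq_true] at h
    refine AA_reach k n w _ V h.2 ((sy g).AA k n U _ ?_ hU)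
    intro b
    have h1 := h.1
    unfold imgChk at h1
    rw [List.all_eq_true] at h1
    have h2 := h1 b.val (List.mem_range.2 b.isLt)
    rw [beq_iff_eq] at h2
    rw [gpL_spec, h2]

/-! ### the family -/

/-- check that `U = U' ∪ {0}` -/
def bitsOK (U U' : ℕ) : Bool :=
  (List.range 28).all fun c => U.testBit c == (U'.testBit c || Nat.beq c 0)

/-- check of the family (each set arises from a later one in the list or from the seed) -/
def famChk (all : List ℕ) : List Step → Bool
  | [] => true
  | s :: rest => famChk all rest &&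
    ((!((s.U - 1).testBit 0) && bitsOK s.U (s.U - 1)) && (colChk (s.U - 1) s.V &&
      (((T0 :: rest.map Step.U).any (Nat.beq s.rU) && reach s.wU s.rU (s.U - 1)) &&
        (all.any (Nat.beq s.rV) && reach s.wV s.rV s.V))))

/-- all members of the family -/
def allU : List ℕ := T0 :: famL.map Step.U

theorem fam_ok : famChk allU famL = true := by decide +kernel

theorem fam_ind {k : Type u} [Field k] (D : GrData (SR k)) (hD : D.S1 = S1 k) (n : ℕ)
    (hV : ∀ r ∈ allU, ∀ w V, reach w r V = true → Lin (S1 k) n (Fin 1) (IV k V))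
    (hT : AA k n T0) : ∀ L : List Step, famChk allU L = true →
      ∀ U ∈ T0 :: L.map Step.U, AA k n U
  | [], _ => by
    intro U hU
    simp only [List.map_nil, List.mem_singleton] at hU
    rwa [hU]
  | s :: rest, h => by
    unfold famChk at h
    simp only [Bool.and_eq_true] at h
    obtain ⟨h1, ⟨h2, h3⟩, h4, ⟨h5, h6⟩, h7, h8⟩ := h
    have ih := fam_ind D hD n hV hT rest h1
    have hs : AA k n s.U := by
      have h2 : (s.U - 1).testBit 0 = false := by simpa using h2
      rw [List.any_eq_true] at h5 h7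
      obtain ⟨r, hr, e⟩ := h5
      obtain ⟨r', hr', e'⟩ := h7
      have e := Nat.eq_of_beq_eq_true e
      have e' := Nat.eq_of_beq_eq_true e'
      refine AA_step D hD n 0 (s.U - 1) s.U s.V ?_ h2 (colon_of_chk h2 h4)
        (AA_reach k n s.wU s.rU _ h6 (e ▸ ih r hr)) (hV s.rV (e' ▸ hr') s.wV s.V h8)
      intro c
      unfold bitsOK at h3
      rw [List.all_eq_true] at h3
      have h9 := h3 c.val (List.mem_range.2 c.isLt)
      rw [beq_iff_eq] at h9
      rw [h9]
      congr 1
      by_cases hc : c = 0
      · subst hc; rfl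
      · have : c.val ≠ 0 := fun h => hc (Fin.ext h)
        rw [decide_eq_false hc]
        rw [← Bool.not_eq_true]
        intro h
        exact this (Nat.eq_of_beq_eq_true h)
    intro U hU
    rw [List.map_cons] at hU
    rcases List.mem_cons.1 hU with rfl | hU
    · exact hT
    · rcases List.mem_cons.1 hU with rfl | hU
      · exact hs
      · exact ih U (List.mem_cons_of_mem _ hU)

/-- conclusion for the family, given the seed -/
theorem fam_all {k : Type u} [Field k] (D : GrData (SR k)) (hD : D.S1 = S1 k)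
    (h0 : AA k 0 T0) (hstep : ∀ n, (∀ U ∈ allU, AA k n U) → AA k (n + 1) T0) :
    ∀ n, ∀ U ∈ allU, AA k n U := by
  intro n
  induction n with
  | zero =>
    exact fam_ind D hD 0 (fun r _ w V _ => lin_IV_zero V) h0 famL fam_ok
  | succ n ih =>
    exact fam_ind D hD (n + 1)
      (fun r hr w V h => lin_IV_succ n V (AA_reach k n w r V h (ih r hr)))
      (hstep n ih) famL fam_ok

theorem full_mem : (268435455 : ℕ) ∈ allU := by decide +kernel

end Pool.Agent.Helper56.Koszul
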