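import Mathlib
import Pool.Agent.Helper56.Koszul.Fam

/-!
The seed: three variables whose relations have a filtration by two copies of the same kind of
module and eleven cyclic modules.
-/

namespace Pool.Agent.Helper56.Koszul

universe u

open Pool.Agent.Helper8.KZ

theorem Lin.pred {S : Type u} [CommRing S] (S1 : AddSubgroup S) (n : ℕ) :
    ∀ {ι : Type} {N : Submodule S (ι → S)}, Lin S1 (n + 1) ι N → Lin S1 n ι N := by
  induction n with
  | zero =>
    rintro ι N ⟨κ, i, v, h1, h2, -⟩
    exact ⟨κ, i, v, h1, h2⟩
  | succ n ih =>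
    rintro ι N ⟨κ, i, v, h1, h2, h3⟩
    exact ⟨κ, i, v, h1, h2, ih h3⟩

/-! ### data -/

/-- letters of the seed -/
def tt (i : Fin 3) : Fin 28 := Fin.ofNat 28 (ttL.getD i.val 0)

/-- direction of the `j`-th syzygy -/
def gdir (j : ℕ) : ℕ := (sgL.getD j (0, [])).1

/-- letters of the `j`-th syzygy -/
def gw (j : ℕ) (i : Fin 3) : Fin 28 := Fin.ofNat 28 ((sgL.getD j (0, [])).2.getD i.val 0)

/-- signs of the three directions: `(1,-1,0)`, `(0,1,-1)`, `(1,0,-1)` -/
def sg (d : ℕ) (i : Fin 3) : ℤ :=
  if d = 0 then ![1, -1, 0] i else if d = 1 then ![0, 1, -1] i else ![1, 0, -1] i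

/-- word of the position of the `j`-th syzygy -/
def Pw (j : ℕ) : List ℕ :=
  bif Nat.beq (gdir j) 1 then [(gw j 1).val, (tt 1).val] else [(gw j 0).val, (tt 0).val]

theorem Pw_ok : ∀ j : Fin 17, ∀ i : Fin 3, sg (gdir j.val) i ≠ 0 →
    wc [(gw j.val i).val, (tt i).val] = wc (Pw j.val) := by decide +kernel

theorem Pw_length (j : ℕ) : (Pw j).length = 2 := by
  unfold Pw
  cases Nat.beq (gdir j) 1 <;> rfl

theorem Pw_spec (j : Fin 17) (i : Fin 3) (h : sg (gdir j.val) i ≠ 0) :
    eL (gw j.val i) + eL (tt i) = wv (Pw j.val) := by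
  have h1 : wv [(gw j.val i).val, (tt i).val] = wv (Pw j.val) :=
    wv_eq_of_code (by simp) (by rw [Pw_length]; norm_num) (Pw_ok j i h)
  rw [← h1, wv_cons, wv_single, eN_val, eN_val]

noncomputable section

variable (k : Type u) [Field k]

/-- the 17 linear syzygies -/
def gv (j : Fin 17) (i : Fin 3) : SR k := ((sg (gdir j.val) i : ℤ) : SR k) * xv k (gw j.val i)

theorem gv_mem_S1 (j : Fin 17) (i : Fin 3) : gv k j i ∈ S1 k := by
  unfold gv
  rw [← zsmul_eq_mul]
  exact (S1 k).zsmul_mem (xv_mem_S1 _) _

/-- monomial at position `m - t_i` (zero if there is none) -/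
def Xm (m : Lam) (i : Fin 3) : SR k :=
  open Classical in
  if h : ∃ a : Lam, a + eL (tt i) = m then AddMonoidAlgebra.single h.choose 1 else 0

theorem mul_gv (a m : Lam) (j : Fin 17) (i : Fin 3) (h : a + wv (Pw j.val) = m) :
    AddMonoidAlgebra.single a 1 * gv k j i = ((sg (gdir j.val) i : ℤ) : SR k) * Xm k m i := by
  by_cases h0 : sg (gdir j.val) i = 0
  · unfold gv
    rw [h0]
    simp
  · have h1 := Pw_spec j i h0
    have h2 : (a + eL (gw j.val i)) + eL (tt i) = m := by rw [add_assoc, h1, h]
    have h3 : ∃ a : Lam, a + eL (tt i) = m := ⟨_, h2⟩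
    have h4 : h3.choose = a + eL (gw j.val i) := by
      exact add_right_cancel (h3.choose_spec.trans h2.symm)
    unfold Xm gv
    rw [dif_pos h3, h4, mul_left_comm]
    congr 1
    unfold xv
    rw [AddMonoidAlgebra.single_mul_single, one_mul]

/-- relations among three variables -/
def NTm (t : Fin 3 → Fin 28) : Submodule (SR k) (Fin 3 → SR k) where
  carrier := {f | ∑ i, f i * xv k (t i) = 0}
  add_mem' := by
    intro f g hf hg
    simp only [Set.mem_ofPred_eq] at hf hg
    simp [add_mul, Finset.sum_add_distrib, hf, hg]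
  zero_mem' := by simp
  smul_mem' := by
    intro c f hf
    simp only [Set.mem_ofPred_eq] at hf
    simp [mul_assoc, ← Finset.mul_sum, hf]

theorem mem_NTm (t : Fin 3 → Fin 28) (f : Fin 3 → SR k) :
    f ∈ NTm k t ↔ ∑ i, f i * xv k (t i) = 0 := Iff.rfl

theorem lin_NTm_of_AA (n M : ℕ) (t : Fin 3 → Fin 28) (ht : Function.Injective t)
    (hM : ∀ b : Fin 28, M.testBit b.val = true ↔ ∃ i, t i = b) (h : AA k n M) :
    Lin (S1 k) n (Fin 3) (NTm k t) := by
  have hsum : ∀ f : Fin 28 → SR k, (∀ b : Fin 28, M.testBit b.val = false → f b = 0) →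
      ∑ i, f (t i) * xv k (t i) = ∑ b, f b * xv k b := by
    intro f hf
    apply Fintype.sum_of_injective t ht
    · intro b hb
      rw [hf b, zero_mul]
      rw [← Bool.not_eq_true, hM b]
      exact hb
    · intro i; rfl
  have hmap : (KU k M).map (LinearMap.funLeft (SR k) (SR k) t) = NTm k t := by
    ext y
    constructor
    · rintro ⟨f, ⟨h1, h2⟩, rfl⟩
      rw [mem_NTm]
      show ∑ i, f (t i) * xv k (t i) = 0
      rw [hsum f h1, h2]
    · intro hy
      have hy : ∑ i, y i * xv k (t i) = 0 := hy
      have hf : ∀ b : Fin 28, M.testBit b.val = false → Function.extend t y 0 b = 0 := by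
        intro b hb
        rw [Function.extend_apply']
        · rfl
        · intro h
          rw [← hM b] at h
          rw [h] at hb
          exact absurd hb (by simp)
      refine ⟨Function.extend t y 0, ⟨hf, ?_⟩, ?_⟩
      · rw [← hsum _ hf]
        simp only [ht.extend_apply]
        exact hy
      · funext i
        exact ht.extend_apply y 0 i
  rw [← hmap]
  refine Lin.map (S1 k) n (KU k M) _ ?_ ?_ h
  · rintro f ⟨h1, -⟩ h2
    funext b
    by_cases hb : M.testBit b.val = true
    · obtain ⟨i, rfl⟩ := (hM b).1 hb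
      exact congrFun h2 i
    · exact h1 b (by simpa using hb)
  · intro f _ h1 i
    exact h1 (t i)

theorem AA_of_lin_NTm (n M : ℕ) (t : Fin 3 → Fin 28) (ht : Function.Injective t)
    (hM : ∀ b : Fin 28, M.testBit b.val = true ↔ ∃ i, t i = b)
    (h : Lin (S1 k) n (Fin 3) (NTm k t)) : AA k n M := by
  have hmap : (NTm k t).map (Function.ExtendByZero.linearMap (SR k) t) = KU k M := by
    ext f
    constructor
    · rintro ⟨y, hy, rfl⟩
      have hy : ∑ i, y i * xv k (t i) = 0 := hy
      refine ⟨?_, ?_⟩
      · intro b hb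
        show Function.extend t y 0 b = 0
        rw [Function.extend_apply']
        · rfl
        · intro h
          rw [← hM b] at h
          rw [h] at hb
          exact absurd hb (by simp)
      · rw [← hy]
        symm
        apply Fintype.sum_of_injective t ht
        · intro b hb
          show Function.extend t y 0 b * xv k b = 0
          rw [Function.extend_apply' _ _ _ hb]
          simp
        · intro i
          show y i * xv k (t i) = Function.extend t y 0 (t i) * xv k (t i)
          rw [ht.extend_apply]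
    · rintro ⟨h1, h2⟩
      have hf : Function.extend t (fun i => f (t i)) 0 = f := by
        funext b
        by_cases hb : ∃ i, t i = b
        · obtain ⟨i, rfl⟩ := hb
          rw [ht.extend_apply]
        · rw [Function.extend_apply' _ _ _ hb]
          symm
          apply h1
          rw [← Bool.not_eq_true, hM b]
          exact hb
      refine ⟨fun i => f (t i), ?_, hf⟩
      show ∑ i, f (t i) * xv k (t i) = 0
      rw [← h2]
      apply Fintype.sum_of_injective t ht
      · intro b hb
        rw [h1 b, zero_mul]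
        rw [← Bool.not_eq_true, hM b]
        exact hb
      · intro i; rfl
  unfold Koszul.AA
  rw [← hmap]
  refine Lin.map (S1 k) n (NTm k t) _ ?_ ?_ h
  · intro y _ h1
    funext i
    have := congrFun h1 (t i)
    change Function.extend t y 0 (t i) = 0 at this
    rw [ht.extend_apply] at this
    exact this
  · intro y _ h1 b
    show Function.extend t y 0 b ∈ S1 k
    by_cases hb : ∃ i, t i = b
    · obtain ⟨i, rfl⟩ := hb
      rw [ht.extend_apply]
      exact h1 i
    · rw [Function.extend_apply' _ _ _ hb]
      exact (S1 k).zero_mem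

end

end Pool.Agent.Helper56.Koszul
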