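import Mathlib
import Pool.Agent.Helper56.Koszul.Seed

/-!
The chain of submodules of the syzygies of the seed.
-/

namespace Pool.Agent.Helper56.Koszul

universe u

open Pool.Agent.Helper8.KZ

/-! ### finite checks -/

/-- some letter of the mask `V` divides the word `w` -/
def hitW (V : ℕ) (w : List ℕ) : Bool := (List.range 28).any fun v => V.testBit v && dvw [v] w

theorem hitW_spec {V : ℕ} {w : List ℕ} (h : hitW V w = true) : DvV V (wv w) := by
  unfold hitW at h
  rw [List.any_eq_true] at h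
  obtain ⟨v, hv, h1⟩ := h
  rw [Bool.and_eq_true] at h1
  have hv := List.mem_range.1 hv
  obtain ⟨m, e⟩ := dvw_spec h1.2
  rw [wv_single, eN_eq_eL hv] at e
  exact ⟨⟨v, hv⟩, h1.1, m, e⟩

/-- there is a node with bounds `c` all of whose generators are divisible by letters of `V` -/
def nodeHit (V : ℕ) (c : List ℕ) : Bool := nodesL.any fun nd => eqL nd.c c && nd.g.all (hitW V)

theorem nodeHit_spec {V : ℕ} {c : List ℕ} (h : nodeHit V c = true) {l : Lam} (hl : Sat c l) :
    DvV V l := by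
  unfold nodeHit at h
  rw [List.any_eq_true] at h
  obtain ⟨nd, hnd, h1⟩ := h
  rw [Bool.and_eq_true, List.all_eq_true] at h1
  rw [← eqL_spec h1.1] at hl
  obtain ⟨w, hw, m, e⟩ := genP_of_chk _ nodes_ok nd hnd l hl
  obtain ⟨b, hb, m', e'⟩ := hitW_spec (h1.2 w hw)
  exact ⟨b, hb, m + m', by rw [e, e', add_assoc]⟩

/-- mask of the colon ideal at step `m` -/
def Vm (m : ℕ) : ℕ := (chL.getD (m - 6) (0, [])).1

/-- bounds used at step `m` -/
def Cm (m : ℕ) : List (List ℕ) := (chL.getD (m - 6) (0, [])).2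

/-- the component `i` occurs in direction `d` -/
def inD (d i : ℕ) : Bool := !(Nat.beq (d + i) 2 && Nat.beq d 0) &&
  (!(Nat.beq d 1 && Nat.beq i 0) && !(Nat.beq d 2 && Nat.beq i 1))

theorem inD_ok : ∀ d : Fin 3, ∀ i : Fin 3, sg d.val i ≠ 0 → inD d.val i.val = true := by
  decide

theorem gdir_lt : ∀ j : Fin 17, gdir j.val < 3 := by decide +kernel

/-- upper bound check at step `m` -/
def chk1 (m : ℕ) : Bool :=
  (Cm m).all (nodeHit (Vm m)) &&
  ((List.range 3).all fun i => (List.range 3).all fun i' =>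
    (Nat.beq i i' || (!(inD (gdir m) i) || !(inD (gdir m) i'))) ||
    ((List.range m).all fun j => !(inD (gdir j) i) ||
      ((List.range m).all fun j' => !(inD (gdir j') i') ||
        (Cm m).any fun c => bndB c (Pw m) (Pw j) (Pw j'))))

theorem chk1_ok : ((List.range 11).all fun n => chk1 (n + 6)) = true := by decide +kernel

/-- some syzygy of index `< m` and direction `d` divides `v` times the `m`-th syzygy -/
def divs (m d v : ℕ) : Bool :=
  (List.range m).any fun j => Nat.beq (gdir j) d && inC (wc (v :: Pw m) - wc (Pw j))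

/-- lower bound check at step `m` -/
def chk2 (m : ℕ) : Bool :=
  (List.range 28).all fun v => !((Vm m).testBit v) || (divs m (gdir m) v ||
    (divs m (bif Nat.beq (gdir m) 0 then 1 else 0) v &&
      divs m (bif Nat.beq (gdir m) 2 then 1 else 2) v))

theorem chk2_ok : ((List.range 11).all fun n => chk2 (n + 6)) = true := by decide +kernel

theorem chk1_spec {m : ℕ} (h6 : 6 ≤ m) (h17 : m < 17) : chk1 m = true := by
  have h1 := chk1_ok
  rw [List.all_eq_true] at h1
  have h2 := h1 (m - 6) (List.mem_range.2 (by omega))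
  rwa [Nat.sub_add_cancel h6] at h2

theorem chk2_spec {m : ℕ} (h6 : 6 ≤ m) (h17 : m < 17) : chk2 m = true := by
  have h1 := chk2_ok
  rw [List.all_eq_true] at h1
  have h2 := h1 (m - 6) (List.mem_range.2 (by omega))
  rwa [Nat.sub_add_cancel h6] at h2

/-- the combinatorial part of the upper bound for the colon ideals of the chain -/
theorem upper_bound {m : ℕ} (h6 : 6 ≤ m) (h17 : m < 17) {i i' : Fin 3} (hii : i ≠ i')
    (hi : sg (gdir m) i ≠ 0) (hi' : sg (gdir m) i' ≠ 0) {l : Lam}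
    (h1 : ∃ j < m, sg (gdir j) i ≠ 0 ∧ ∃ x : Lam, l + wv (Pw m) = x + wv (Pw j))
    (h2 : ∃ j < m, sg (gdir j) i' ≠ 0 ∧ ∃ x : Lam, l + wv (Pw m) = x + wv (Pw j)) :
    DvV (Vm m) l := by
  obtain ⟨j, hj, hs, x, e⟩ := h1
  obtain ⟨j', hj', hs', x', e'⟩ := h2
  have hc := chk1_spec h6 h17
  unfold chk1 at hc
  rw [Bool.and_eq_true] at hc
  obtain ⟨hA, hB⟩ := hc
  rw [List.all_eq_true] at hA hB
  have hB := hB i.val (List.mem_range.2 i.isLt)
  rw [List.all_eq_true] at hB
  have hB := hB i'.val (List.mem_range.2 i'.isLt)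
  have d1 : inD (gdir m) i.val = true := inD_ok ⟨gdir m, gdir_lt ⟨m, h17⟩⟩ i hi
  have d2 : inD (gdir m) i'.val = true := inD_ok ⟨gdir m, gdir_lt ⟨m, h17⟩⟩ i' hi'
  have d3 : inD (gdir j) i.val = true := inD_ok ⟨gdir j, gdir_lt ⟨j, by omega⟩⟩ i hs
  have d4 : inD (gdir j') i'.val = true := inD_ok ⟨gdir j', gdir_lt ⟨j', by omega⟩⟩ i' hs'
  have hne : Nat.beq i.val i'.val = false := by
    rw [← Bool.not_eq_true]
    intro h
    exact hii (Fin.ext (Nat.eq_of_beq_eq_true h))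
  rw [hne, d1, d2, Bool.not_true, Bool.false_or, Bool.false_or, Bool.false_or,
    List.all_eq_true] at hB
  have hB := hB j (List.mem_range.2 hj)
  rw [d3, Bool.not_true, Bool.false_or, List.all_eq_true] at hB
  have hB := hB j' (List.mem_range.2 hj')
  rw [d4, Bool.not_true, Bool.false_or, List.any_eq_true] at hB
  obtain ⟨c, hc, hb⟩ := hB
  exact nodeHit_spec (hA c hc) (sat_of hb e e')

theorem divs_spec {m d v : ℕ} (_ : m < 17) (hv : v < 28) (h : divs m d v = true) :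
    ∃ j < m, gdir j = d ∧ ∃ w : Fin 28, eL w + wv (Pw j) = eL ⟨v, hv⟩ + wv (Pw m) := by
  unfold divs at h
  rw [List.any_eq_true] at h
  obtain ⟨j, hj, h1⟩ := h
  rw [Bool.and_eq_true] at h1
  obtain ⟨h2, h3⟩ := inC_spec h1.2
  obtain ⟨r, hr, e⟩ := code_mem h3
  refine ⟨j, List.mem_range.1 hj, Nat.eq_of_beq_eq_true h1.1, ⟨r, hr⟩, ?_⟩
  rw [← eN_eq_eL hr, ← eN_eq_eL hv, ← wv_cons, ← wv_cons]
  apply wv_eq_of_code
  · simp [Pw_length]
  · simp [Pw_length]
  · rw [wc_cons r, e]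
    omega

/-! ### the chain -/

noncomputable section

variable (k : Type u) [Field k]

/-- relations among the first `m` syzygies -/
def Kg (m : ℕ) : Submodule (SR k) (Fin 17 → SR k) where
  carrier := {f | (∀ j : Fin 17, m ≤ j.val → f j = 0) ∧ ∀ i, ∑ j, f j * gv k j i = 0}
  add_mem' := by
    rintro f g ⟨h1, h2⟩ ⟨h3, h4⟩
    refine ⟨fun b hb => by simp [h1 b hb, h3 b hb], fun i => ?_⟩
    simp [add_mul, Finset.sum_add_distrib, h2, h4]
  zero_mem' := by simp
  smul_mem' := by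
    rintro c f ⟨h1, h2⟩
    refine ⟨fun b hb => by simp [h1 b hb], fun i => ?_⟩
    simp [mul_assoc, ← Finset.mul_sum, h2]

theorem Kg_p1 (D : GrData (SR k)) (hD : D.S1 = S1 k) (m : ℕ) (f : Fin 17 → SR k)
    (hf : f ∈ Kg k m) : (fun i => D.p1 (f i)) ∈ Kg k m := by
  obtain ⟨h1, h2⟩ := hf
  refine ⟨fun b hb => by simp [h1 b hb], fun i => ?_⟩
  have h3 := congrArg D.p2 (h2 i)
  rw [map_sum, map_zero] at h3
  rw [← h3]
  apply Finset.sum_congr rfl
  intro b _
  rw [mul_comm (f b), D.p2_mul _ (by rw [hD]; exact gv_mem_S1 k b i), mul_comm]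

/-- nonvanishing of a coefficient in a product with a syzygy component -/
theorem exists_of_coeff_mul_gv {f : SR k} {j : Fin 17} {i : Fin 3} {l : Lam}
    (h : (f * gv k j i).coeff l ≠ 0) :
    sg (gdir j.val) i ≠ 0 ∧ ∃ m : Lam, l = m + eL (gw j.val i) := by
  constructor
  · intro h0
    unfold gv at h
    rw [h0] at h
    simp at h
  · unfold gv at h
    rw [← zsmul_eq_mul, mul_smul_comm] at h
    apply exists_of_coeff_mul_xv (k := k) (f := f)
    intro h0
    apply h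
    rw [AddMonoidAlgebra.coeff_smul, Finsupp.smul_apply, h0, smul_zero]

theorem coeff_mul_gv {f : SR k} {j : Fin 17} {i : Fin 3} {l : Lam}
    (h0 : sg (gdir j.val) i ≠ 0) (hl : f.coeff l ≠ 0) :
    (f * gv k j i).coeff (l + eL (gw j.val i)) ≠ 0 := by
  have hs : sg (gdir j.val) i = 1 ∨ sg (gdir j.val) i = -1 := by
    have : ∀ d : Fin 3, ∀ i : Fin 3, sg d.val i ≠ 0 → sg d.val i = 1 ∨ sg d.val i = -1 := by
      decide
    exact this ⟨_, gdir_lt j⟩ i h0
  unfold gv
  rw [← zsmul_eq_mul, mul_smul_comm, AddMonoidAlgebra.coeff_smul, Finsupp.smul_apply,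
    coeff_mul_xv]
  rcases hs with hs | hs
  · rw [hs, one_smul]; exact hl
  · rw [hs, neg_smul, one_smul]; exact neg_ne_zero.2 hl

/-- the upper bound for the colon ideals of the chain -/
theorem Kg_upper {m : ℕ} (h6 : 6 ≤ m) (h17 : m < 17) {f : Fin 17 → SR k}
    (hf : f ∈ Kg k (m + 1)) (l : Lam) (hl : (f ⟨m, h17⟩).coeff l ≠ 0) : DvV (Vm m) l := by
  obtain ⟨h1, h2⟩ := hf
  have key : ∀ i : Fin 3, sg (gdir m) i ≠ 0 →
      ∃ j < m, sg (gdir j) i ≠ 0 ∧ ∃ x : Lam, l + wv (Pw m) = x + wv (Pw j) := by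
    intro i hi
    have h3 := coeff_mul_gv k (j := ⟨m, h17⟩) (i := i) hi hl
    have h4 : ∃ j : Fin 17, j ≠ ⟨m, h17⟩ ∧
        (f j * gv k j i).coeff (l + eL (gw m i)) ≠ 0 := by
      by_contra hne
      push Not at hne
      apply h3
      have h7 := congrArg (fun x => x.coeff (l + eL (gw m i))) (h2 i)
      simp only [AddMonoidAlgebra.coeff_sum, Finsupp.finsetSum_apply,
        AddMonoidAlgebra.coeff_zero, Finsupp.coe_zero, Pi.zero_apply] at h7
      rw [Finset.sum_eq_single ⟨m, h17⟩ (fun u _ hu => hne u hu)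
        (fun h => absurd (Finset.mem_univ _) h)] at h7
      exact h7
    obtain ⟨j, hj, h5⟩ := h4
    have hjm : j.val < m := by
      by_contra h
      have h8 : j.val ≠ m := fun h => hj (Fin.ext h)
      rw [h1 j (by omega), zero_mul] at h5
      exact h5 rfl
    obtain ⟨h6, x, e⟩ := exists_of_coeff_mul_gv k h5
    refine ⟨j.val, hjm, h6, x, ?_⟩
    rw [← Pw_spec ⟨m, h17⟩ i hi, ← Pw_spec j i h6]
    rw [← add_assoc, ← add_assoc, ← e]
  have hd : ∃ i i' : Fin 3, i ≠ i' ∧ sg (gdir m) i ≠ 0 ∧ sg (gdir m) i' ≠ 0 := by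
    have : ∀ d : Fin 3, ∃ i i' : Fin 3, i ≠ i' ∧ sg d.val i ≠ 0 ∧ sg d.val i' ≠ 0 := by decide
    exact this ⟨_, gdir_lt ⟨m, h17⟩⟩
  obtain ⟨i, i', hii, hi, hi'⟩ := hd
  exact upper_bound h6 h17 hii hi hi' (key i hi) (key i' hi')

/-- the lower bound for the colon ideals of the chain -/
theorem Kg_lower {m : ℕ} (h6 : 6 ≤ m) (h17 : m < 17) (v : Fin 28)
    (hv : (Vm m).testBit v.val = true) : ∃ f ∈ Kg k (m + 1), f ⟨m, h17⟩ = xv k v := by
  have hc := chk2_spec h6 h17
  unfold chk2 at hc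
  rw [List.all_eq_true] at hc
  have h1 := hc v.val (List.mem_range.2 v.isLt)
  rw [hv, Bool.not_true, Bool.false_or, Bool.or_eq_true, Bool.and_eq_true] at h1
  set μ : Lam := eL v + wv (Pw m) with hμ
  have hm : ∀ i, xv k v * gv k ⟨m, h17⟩ i = ((sg (gdir m) i : ℤ) : SR k) * Xm k μ i :=
    fun i => mul_gv k (eL v) μ ⟨m, h17⟩ i rfl
  rcases h1 with h1 | ⟨h1, h2⟩
  · obtain ⟨j, hj, hd, w, e⟩ := divs_spec h17 v.isLt h1
    have hj17 : j < 17 := by omega
    have hjm : (⟨j, hj17⟩ : Fin 17) ≠ ⟨m, h17⟩ := fun h => by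
      have := congrArg Fin.val h
      simp only at this
      omega
    have hw : ∀ i, xv k w * gv k ⟨j, hj17⟩ i = ((sg (gdir j) i : ℤ) : SR k) * Xm k μ i :=
      fun i => mul_gv k (eL w) μ ⟨j, hj17⟩ i e
    refine ⟨Pi.single ⟨m, h17⟩ (xv k v) - Pi.single ⟨j, hj17⟩ (xv k w), ⟨?_, ?_⟩, ?_⟩
    · intro a ha
      have h3 : a ≠ ⟨m, h17⟩ := fun h => by rw [h] at ha; simp at ha
      have h4 : a ≠ ⟨j, hj17⟩ := fun h => by rw [h] at ha; simp at ha; omega
      simp [Pi.single_eq_of_ne h3, Pi.single_eq_of_ne h4]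
    · intro i
      simp only [Pi.sub_apply, sub_mul, Finset.sum_sub_distrib]
      rw [Finset.sum_eq_single ⟨m, h17⟩, Finset.sum_eq_single ⟨j, hj17⟩]
      · rw [Pi.single_eq_same, Pi.single_eq_same, hm, hw, hd, sub_self]
      · intro c _ h; rw [Pi.single_eq_of_ne h, zero_mul]
      · intro h; exact absurd (Finset.mem_univ _) h
      · intro c _ h; rw [Pi.single_eq_of_ne h, zero_mul]
      · intro h; exact absurd (Finset.mem_univ _) h
    · simp [Pi.single_eq_of_ne (Ne.symm hjm)]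
  · obtain ⟨j, hj, hd, w, e⟩ := divs_spec h17 v.isLt h1
    obtain ⟨j', hj', hd', w', e'⟩ := divs_spec h17 v.isLt h2
    have hj17 : j < 17 := by omega
    have hj17' : j' < 17 := by omega
    have hjm : (⟨j, hj17⟩ : Fin 17) ≠ ⟨m, h17⟩ := fun h => by
      have := congrArg Fin.val h
      simp only at this
      omega
    have hjm' : (⟨j', hj17'⟩ : Fin 17) ≠ ⟨m, h17⟩ := fun h => by
      have := congrArg Fin.val h
      simp only at this
      omega
    have hw : ∀ i, xv k w * gv k ⟨j, hj17⟩ i = ((sg (gdir j) i : ℤ) : SR k) * Xm k μ i :=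
      fun i => mul_gv k (eL w) μ ⟨j, hj17⟩ i e
    have hw' : ∀ i, xv k w' * gv k ⟨j', hj17'⟩ i =
        ((sg (gdir j') i : ℤ) : SR k) * Xm k μ i :=
      fun i => mul_gv k (eL w') μ ⟨j', hj17'⟩ i e'
    have hco : ∃ c c' : ℤ, ∀ i, sg (gdir m) i = c * sg (gdir j) i + c' * sg (gdir j') i := by
      rw [hd, hd']
      have h3 := gdir_lt ⟨m, h17⟩
      simp only at h3
      interval_cases gdir m
      · exact ⟨-1, 1, by decide⟩
      · exact ⟨-1, 1, by decide⟩
      · exact ⟨1, 1, by decide⟩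
    obtain ⟨c, c', hcc⟩ := hco
    refine ⟨Pi.single ⟨m, h17⟩ (xv k v) - (Pi.single ⟨j, hj17⟩ ((c : SR k) * xv k w) +
      Pi.single ⟨j', hj17'⟩ ((c' : SR k) * xv k w')), ⟨?_, ?_⟩, ?_⟩
    · intro a ha
      have h3 : a ≠ ⟨m, h17⟩ := fun h => by rw [h] at ha; simp at ha
      have h4 : a ≠ ⟨j, hj17⟩ := fun h => by rw [h] at ha; simp at ha; omega
      have h5 : a ≠ ⟨j', hj17'⟩ := fun h => by rw [h] at ha; simp at ha; omega
      simp [Pi.single_eq_of_ne h3, Pi.single_eq_of_ne h4, Pi.single_eq_of_ne h5]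
    · intro i
      simp only [Pi.sub_apply, Pi.add_apply, sub_mul, add_mul, Finset.sum_sub_distrib,
        Finset.sum_add_distrib]
      rw [Finset.sum_eq_single ⟨m, h17⟩, Finset.sum_eq_single ⟨j, hj17⟩,
        Finset.sum_eq_single ⟨j', hj17'⟩]
      · rw [Pi.single_eq_same, Pi.single_eq_same, Pi.single_eq_same, mul_assoc, mul_assoc,
          hm, hw, hw', hcc]
        push_cast
        ring
      · intro c _ h; rw [Pi.single_eq_of_ne h, zero_mul]
      · intro h; exact absurd (Finset.mem_univ _) h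
      · intro c _ h; rw [Pi.single_eq_of_ne h, zero_mul]
      · intro h; exact absurd (Finset.mem_univ _) h
      · intro c _ h; rw [Pi.single_eq_of_ne h, zero_mul]
      · intro h; exact absurd (Finset.mem_univ _) h
    · simp [Pi.single_eq_of_ne (Ne.symm hjm), Pi.single_eq_of_ne (Ne.symm hjm')]

/-- one step of the chain -/
theorem Kg_step (D : GrData (SR k)) (hD : D.S1 = S1 k) (n : ℕ) {m : ℕ} (h6 : 6 ≤ m)
    (h17 : m < 17) (h1 : Lin (S1 k) n (Fin 17) (Kg k m))
    (h2 : Lin (S1 k) n (Fin 1) (IV k (Vm m))) : Lin (S1 k) n (Fin 17) (Kg k (m + 1)) := by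
  rw [← hD] at h1 h2 ⊢
  refine Lin.glue D n (fun _ : Fin 1 => (⟨m, h17⟩ : Fin 17)) (Kg k (m + 1)) (Kg k m)
    (IV k (Vm m)) (Kg_p1 k D hD (m + 1)) ?_ ?_ h1 h2
  · intro f
    constructor
    · rintro ⟨h3, h4⟩
      exact ⟨⟨fun c hcc => h3 c (by omega), h4⟩, fun _ => h3 _ le_rfl⟩
    · rintro ⟨⟨h3, h4⟩, h5⟩
      refine ⟨fun c hcc => ?_, h4⟩
      by_cases hcb : c = ⟨m, h17⟩
      · rw [hcb]; exact h5 0
      · apply h3
        have : c.val ≠ m := fun h => hcb (Fin.ext h)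
        omega
  · intro y
    constructor
    · intro hy
      have key : IV k (Vm m) ≤ (Kg k (m + 1)).map (LinearMap.pi fun _ : Fin 1 =>
          (LinearMap.proj (R := SR k) (φ := fun _ : Fin 17 => SR k) ⟨m, h17⟩)) := by
        unfold IV
        rw [Submodule.span_le]
        rintro _ ⟨v, hv, rfl⟩
        obtain ⟨f, hf, e⟩ := Kg_lower k h6 h17 v hv
        exact ⟨f, hf, by funext i; exact e⟩
      obtain ⟨f, hf, e⟩ := key hy
      exact ⟨f, hf, e⟩
    · rintro ⟨f, hf, rfl⟩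
      rw [mem_IV]
      intro l hl
      exact Kg_upper k h6 h17 hf l hl

end

end Pool.Agent.Helper56.Koszul
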