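import Mathlib
import Pool.Agent.Helper56.Koszul.Seed2

/-!
Base of the chain, generation of the syzygies of the seed, and the seed step.
-/

namespace Pool.Agent.Helper56.Koszul

universe u

open Pool.Agent.Helper8.KZ

noncomputable section

variable (k : Type u) [Field k]

/-! ### base of the chain -/

/-- letters of the first group -/
def t1 (i : Fin 3) : Fin 28 := gw i.val 1

/-- letters of the second group -/
def t2 (i : Fin 3) : Fin 28 := gw (i.val + 3) 0

/-- masks -/
def M1 : ℕ := 2 ^ (t1 0).val + 2 ^ (t1 1).val + 2 ^ (t1 2).val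
def M2 : ℕ := 2 ^ (t2 0).val + 2 ^ (t2 1).val + 2 ^ (t2 2).val

theorem t1_inj : Function.Injective t1 := by
  unfold Function.Injective
  decide +kernel
theorem t2_inj : Function.Injective t2 := by
  unfold Function.Injective
  decide +kernel
theorem tt_inj : Function.Injective tt := by
  unfold Function.Injective
  decide +kernel
theorem M1_spec : ∀ b : Fin 28, M1.testBit b.val = true ↔ ∃ i, t1 i = b := by decide +kernel
theorem M2_spec : ∀ b : Fin 28, M2.testBit b.val = true ↔ ∃ i, t2 i = b := by decide +kernel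
theorem T0_spec : ∀ b : Fin 28, T0.testBit b.val = true ↔ ∃ i, tt i = b := by decide +kernel

/-- multiplication by `x_{t_i}` changes a component of a syzygy to its position -/
theorem gv_mul_tt (j : Fin 17) (i : Fin 3) : gv k j i * xv k (tt i) =
    ((sg (gdir j.val) i : ℤ) : SR k) * AddMonoidAlgebra.single (wv (Pw j.val)) 1 := by
  unfold gv
  by_cases h0 : sg (gdir j.val) i = 0
  · rw [h0]; simp
  · rw [mul_assoc, xv_mul, Pw_spec j i h0]

theorem sum_mul_tt (f : Fin 17 → SR k) (i : Fin 3) :
    (∑ j, f j * gv k j i) * xv k (tt i) =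
    ∑ j, ((sg (gdir j.val) i : ℤ) : SR k) * (f j * AddMonoidAlgebra.single (wv (Pw j.val)) 1) := by
  rw [Finset.sum_mul]
  apply Finset.sum_congr rfl
  intro j _
  rw [mul_assoc, gv_mul_tt]
  ring

theorem sum_eq_zero_iff (f : Fin 17 → SR k) (i : Fin 3) :
    ∑ j, f j * gv k j i = 0 ↔ ∑ j, ((sg (gdir j.val) i : ℤ) : SR k) *
      (f j * AddMonoidAlgebra.single (wv (Pw j.val)) 1) = 0 := by
  rw [← sum_mul_tt]
  constructor
  · intro h; rw [h, zero_mul]
  · intro h
    exact mul_xv_cancel (b := tt i) (by rw [h, zero_mul])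

theorem Kg3 (n : ℕ) (h : AA k n M1) : Lin (S1 k) n (Fin 17) (Kg k 3) := by
  have h1 := lin_NTm_of_AA k n M1 t1 t1_inj M1_spec h
  let e : Fin 3 → Fin 17 := fun i => ⟨i.val, by omega⟩
  have he : Function.Injective e := by
    intro a b hab
    have := congrArg Fin.val hab
    exact Fin.ext this
  have hd : ∀ i : Fin 3, gdir (e i).val = 1 := by decide +kernel
  have hext : ∀ (y : Fin 3 → SR k) (j : Fin 17), 3 ≤ j.val → Function.extend e y 0 j = 0 := by
    intro y j hj
    rw [Function.extend_apply']
    · rfl
    · rintro ⟨a, rfl⟩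
      have := a.isLt
      simp only [e] at hj
      omega
  have hsum : ∀ (f : Fin 17 → SR k) (_ : ∀ j : Fin 17, 3 ≤ j.val → f j = 0) (i : Fin 3),
      ∑ j, f j * gv k j i = ∑ a, f (e a) * gv k (e a) i := by
    intro f hf i
    symm
    apply Fintype.sum_of_injective e he
    · intro j hj
      rw [hf j, zero_mul]
      by_contra h3
      exact hj ⟨⟨j.val, by omega⟩, rfl⟩
    · intro a; rfl
  have hcomp : ∀ (f : Fin 17 → SR k) (_ : ∀ j : Fin 17, 3 ≤ j.val → f j = 0),
      (∀ i, ∑ j, f j * gv k j i = 0) ↔ ∑ a, f (e a) * xv k (t1 a) = 0 := by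
    intro f hf
    have h2 : ∑ j, f j * gv k j 1 = ∑ a, f (e a) * xv k (t1 a) := by
      rw [hsum f hf 1]
      apply Finset.sum_congr rfl
      intro a _
      unfold gv
      rw [hd a]
      show f (e a) * (((1 : ℤ) : SR k) * xv k (t1 a)) = _
      rw [Int.cast_one, one_mul]
    constructor
    · intro h3; rw [← h2, h3 1]
    · intro h3
      rw [← h2] at h3
      have h4 := (sum_eq_zero_iff k f 1).1 h3
      have h5 : ∑ j : Fin 17, f j * AddMonoidAlgebra.single (wv (Pw j.val)) (1 : k) = 0 := by
        rw [← h4]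
        apply Finset.sum_congr rfl
        intro j _
        by_cases hj : 3 ≤ j.val
        · rw [hf j hj]; simp
        · have : gdir j.val = 1 := hd ⟨j.val, by omega⟩
          rw [this]
          show _ = ((1 : ℤ) : SR k) * _
          rw [Int.cast_one, one_mul]
      intro i
      rw [sum_eq_zero_iff]
      fin_cases i
      · apply Finset.sum_eq_zero
        intro j _
        by_cases hj : 3 ≤ j.val
        · rw [hf j hj]; simp
        · have : gdir j.val = 1 := hd ⟨j.val, by omega⟩
          rw [this]
          show ((0 : ℤ) : SR k) * _ = 0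
          simp
      · exact h4
      · rw [← neg_zero, ← h5, ← Finset.sum_neg_distrib]
        apply Finset.sum_congr rfl
        intro j _
        by_cases hj : 3 ≤ j.val
        · rw [hf j hj]; simp
        · have : gdir j.val = 1 := hd ⟨j.val, by omega⟩
          rw [this]
          show ((-1 : ℤ) : SR k) * _ = _
          simp
  have hmap : (NTm k t1).map (Function.ExtendByZero.linearMap (SR k) e) = Kg k 3 := by
    ext f
    constructor
    · rintro ⟨y, hy, rfl⟩
      have hy : ∑ i, y i * xv k (t1 i) = 0 := hy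
      refine ⟨hext y, ?_⟩
      show ∀ i, ∑ j, Function.extend e y 0 j * gv k j i = 0
      rw [hcomp _ (hext y)]
      simp only [he.extend_apply]
      exact hy
    · rintro ⟨h2, h3⟩
      rw [hcomp f h2] at h3
      refine ⟨fun a => f (e a), h3, ?_⟩
      show Function.extend e (fun a => f (e a)) 0 = f
      funext j
      by_cases hj : ∃ a, e a = j
      · obtain ⟨a, rfl⟩ := hj
        rw [he.extend_apply]
      · rw [Function.extend_apply' _ _ _ hj]
        symm
        apply h2
        by_contra h3
        exact hj ⟨⟨j.val, by omega⟩, rfl⟩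
  rw [← hmap]
  refine Lin.map (S1 k) n (NTm k t1) _ ?_ ?_ h1
  · intro y _ h1
    funext i
    have := congrFun h1 (e i)
    change Function.extend e y 0 (e i) = 0 at this
    rw [he.extend_apply] at this
    exact this
  · intro y _ h1 b
    show Function.extend e y 0 b ∈ S1 k
    by_cases hb : ∃ i, e i = b
    · obtain ⟨i, rfl⟩ := hb
      rw [he.extend_apply]
      exact h1 i
    · rw [Function.extend_apply' _ _ _ hb]
      exact (S1 k).zero_mem

theorem Kg6 (D : GrData (SR k)) (hD : D.S1 = S1 k) (n : ℕ) (h1 : AA k n M1)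
    (h2 : AA k n M2) : Lin (S1 k) n (Fin 17) (Kg k 6) := by
  have hL1 := Kg3 k n h1
  have hL2 := lin_NTm_of_AA k n M2 t2 t2_inj M2_spec h2
  rw [← hD] at hL1 hL2 ⊢
  let e : Fin 3 → Fin 17 := fun i => ⟨i.val + 3, by omega⟩
  have he : Function.Injective e := by
    intro a b hab
    have := congrArg Fin.val hab
    simp only [e] at this
    exact Fin.ext (by omega)
  have hd1 : ∀ i : Fin 3, gdir i.val = 1 := by decide +kernel
  have hd2 : ∀ i : Fin 3, gdir (e i).val = 2 := by decide +kernel
  have hsum0 : ∀ (f : Fin 17 → SR k) (_ : ∀ j : Fin 17, 6 ≤ j.val → f j = 0),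
      ∑ j, f j * gv k j 0 = ∑ a, f (e a) * xv k (t2 a) := by
    intro f hf
    symm
    apply Fintype.sum_of_injective e he
    · intro j hj
      by_cases h6 : 6 ≤ j.val
      · rw [hf j h6, zero_mul]
      · have h3 : j.val < 3 := by
          by_contra h3
          exact hj ⟨⟨j.val - 3, by omega⟩, Fin.ext (by simp only [e]; omega)⟩
        unfold gv
        have : gdir j.val = 1 := hd1 ⟨j.val, h3⟩
        rw [this]
        show f j * (((0 : ℤ) : SR k) * _) = 0
        simp
    · intro a
      unfold gv
      rw [hd2 a]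
      show f (e a) * xv k (t2 a) = f (e a) * (((1 : ℤ) : SR k) * xv k (t2 a))
      rw [Int.cast_one, one_mul]
  refine Lin.glue D n e (Kg k 6) (Kg k 3) (NTm k t2) (Kg_p1 k D hD 6) ?_ ?_ hL1 hL2
  · intro f
    constructor
    · rintro ⟨h3, h4⟩
      exact ⟨⟨fun c hcc => h3 c (by omega), h4⟩, fun i => h3 _ (by simp [e])⟩
    · rintro ⟨⟨h3, h4⟩, h5⟩
      refine ⟨fun c hcc => ?_, h4⟩
      by_cases h6 : 6 ≤ c.val
      · exact h3 c h6
      · have : c = e ⟨c.val - 3, by omega⟩ := Fin.ext (by simp only [e]; omega)
        rw [this]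
        exact h5 _
  · intro y
    constructor
    · intro hy
      have hy : ∑ i, y i * xv k (t2 i) = 0 := hy
      have hext : ∀ j : Fin 17, 6 ≤ j.val → Function.extend e y 0 j = 0 := by
        intro j hj
        rw [Function.extend_apply']
        · rfl
        · rintro ⟨a, rfl⟩
          have := a.isLt
          simp only [e] at hj
          omega
      have hlow : ∀ j : Fin 17, j.val < 3 → Function.extend e y 0 j = 0 := by
        intro j hj
        rw [Function.extend_apply']
        · rfl
        · rintro ⟨a, rfl⟩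
          simp only [e] at hj
          omega
      refine ⟨Function.extend e y 0, ⟨hext, ?_⟩, ?_⟩
      · have h0 : ∑ j, Function.extend e y 0 j * gv k j 0 = 0 := by
          rw [hsum0 _ hext]
          simp only [he.extend_apply]
          exact hy
        have h4 := (sum_eq_zero_iff k _ 0).1 h0
        have hdir : ∀ j : Fin 17, Function.extend e y 0 j = 0 ∨ gdir j.val = 2 := by
          intro j
          by_cases h6 : 6 ≤ j.val
          · exact Or.inl (hext j h6)
          · by_cases h3 : j.val < 3
            · exact Or.inl (hlow j h3)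
            · right
              have := hd2 ⟨j.val - 3, by omega⟩
              simp only [e] at this
              rwa [Nat.sub_add_cancel (by omega)] at this
        have h5 : ∑ j : Fin 17, Function.extend e y 0 j *
            AddMonoidAlgebra.single (wv (Pw j.val)) (1 : k) = 0 := by
          rw [← h4]
          apply Finset.sum_congr rfl
          intro j _
          rcases hdir j with h | h
          · rw [h]; simp
          · rw [h]
            show _ = ((1 : ℤ) : SR k) * _
            rw [Int.cast_one, one_mul]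
        intro i
        rw [sum_eq_zero_iff]
        fin_cases i
        · exact h4
        · apply Finset.sum_eq_zero
          intro j _
          rcases hdir j with h | h
          · rw [h]; simp
          · rw [h]
            show ((0 : ℤ) : SR k) * _ = 0
            simp
        · have h6 : ∑ j : Fin 17, -(Function.extend e y 0 j *
              AddMonoidAlgebra.single (wv (Pw j.val)) (1 : k)) = 0 := by
            rw [Finset.sum_neg_distrib, h5, neg_zero]
          refine Eq.trans (Finset.sum_congr rfl ?_) h6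
          intro j _
          rcases hdir j with h | h
          · rw [h]; simp
          · rw [h]
            show ((-1 : ℤ) : SR k) * _ = _
            simp
      · funext i
        exact he.extend_apply y 0 i
    · rintro ⟨f, ⟨h3, h4⟩, rfl⟩
      show ∑ i, f (e i) * xv k (t2 i) = 0
      rw [← hsum0 f h3]
      exact h4 0

/-! ### generation of the syzygies of the seed -/

theorem cN_ok : ((nodeHit VcM (cNodes.getD 0 []) && (nodeHit VcM (cNodes.getD 1 []) &&
    nodeHit VabM (cNodes.getD 2 []))) && (bndB (cNodes.getD 0 []) [(tt 2).val] [(tt 0).val]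
    [(tt 0).val] && (bndB (cNodes.getD 1 []) [(tt 2).val] [(tt 1).val] [(tt 1).val] &&
    bndB (cNodes.getD 2 []) [(tt 0).val] [(tt 1).val] [(tt 1).val]))) = true := by
  decide +kernel

theorem Vc_ok : ∀ v : Fin 28, VcM.testBit v.val = true →
    ∃ j : Fin 17, sg (gdir j.val) 2 = -1 ∧ gw j.val 2 = v := by decide +kernel

theorem Vab_ok : ∀ v : Fin 28, VabM.testBit v.val = true →
    ∃ j : Fin 17, gdir j.val = 0 ∧ gw j.val 0 = v := by decide +kernel

/-- lifting elements of an ideal of variables to a coordinate of a submodule -/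
theorem lift_coord (V : ℕ) (G : Submodule (SR k) (Fin 3 → SR k)) (i0 : Fin 3)
    (h : ∀ v : Fin 28, V.testBit v.val = true → ∃ g ∈ G, g i0 = xv k v)
    (y : SR k) (hy : ∀ l, y.coeff l ≠ 0 → DvV V l) : ∃ g ∈ G, g i0 = y := by
  have h1 : (fun _ : Fin 1 => y) ∈ IV k V := (mem_IV V _).2 hy
  have key : IV k V ≤ G.map (LinearMap.pi fun _ : Fin 1 =>
      (LinearMap.proj (R := SR k) (φ := fun _ : Fin 3 => SR k) i0)) := by
    unfold IV
    rw [Submodule.span_le]
    rintro _ ⟨v, hv, rfl⟩
    obtain ⟨f, hf, e⟩ := h v hv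
    exact ⟨f, hf, by funext i; exact e⟩
  obtain ⟨g, hg, e⟩ := key h1
  exact ⟨g, hg, congrFun e 0⟩

theorem gv_mem_NTm (j : Fin 17) : gv k j ∈ NTm k tt := by
  rw [mem_NTm]
  simp only [gv_mul_tt]
  rw [← Finset.sum_mul, ← Int.cast_sum]
  have : ∀ d : Fin 3, ∑ i, sg d.val i = 0 := by decide
  rw [this ⟨_, gdir_lt j⟩]
  simp

/-- support of a coordinate of a relation -/
theorem exists_other {f : Fin 3 → SR k} (hf : f ∈ NTm k tt) {i0 : Fin 3} {l : Lam}
    (hl : (f i0).coeff l ≠ 0) : ∃ i : Fin 3, i ≠ i0 ∧ f i ≠ 0 ∧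
      ∃ m : Lam, l + eL (tt i0) = m + eL (tt i) := by
  rw [mem_NTm] at hf
  have h3 : (f i0 * xv k (tt i0)).coeff (l + eL (tt i0)) ≠ 0 := by rwa [coeff_mul_xv]
  have h4 : ∃ i : Fin 3, i ≠ i0 ∧ (f i * xv k (tt i)).coeff (l + eL (tt i0)) ≠ 0 := by
    by_contra hne
    push Not at hne
    apply h3
    have h7 := congrArg (fun x => x.coeff (l + eL (tt i0))) hf
    simp only [AddMonoidAlgebra.coeff_sum, Finsupp.finsetSum_apply,
      AddMonoidAlgebra.coeff_zero, Finsupp.coe_zero, Pi.zero_apply] at h7
    rw [Finset.sum_eq_single i0 (fun u _ hu => hne u hu)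
      (fun h => absurd (Finset.mem_univ _) h)] at h7
    exact h7
  obtain ⟨i, hi, h5⟩ := h4
  refine ⟨i, hi, ?_, exists_of_coeff_mul_xv h5⟩
  rintro h0
  rw [h0, zero_mul] at h5
  exact h5 rfl

theorem span_gv : Submodule.span (SR k) (Set.range (gv k)) = NTm k tt := by
  apply le_antisymm
  · rw [Submodule.span_le]
    rintro _ ⟨j, rfl⟩
    exact gv_mem_NTm k j
  · intro f hf
    have hc := cN_ok
    rw [Bool.and_eq_true, Bool.and_eq_true, Bool.and_eq_true, Bool.and_eq_true,
      Bool.and_eq_true] at hc
    obtain ⟨⟨c1, c2, c3⟩, c4, c5, c6⟩ := hc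
    have hle : Submodule.span (SR k) (Set.range (gv k)) ≤ NTm k tt := by
      rw [Submodule.span_le]
      rintro _ ⟨j, rfl⟩
      exact gv_mem_NTm k j
    -- first coordinate to be removed
    have s1 : ∃ g ∈ Submodule.span (SR k) (Set.range (gv k)), g 2 = f 2 := by
      apply lift_coord k VcM
      · intro v hv
        obtain ⟨j, hj, hw⟩ := Vc_ok v hv
        refine ⟨-gv k j, Submodule.neg_mem _ (Submodule.subset_span ⟨j, rfl⟩), ?_⟩
        unfold gv
        rw [Pi.neg_apply, hj, hw]
        simp
      · intro l hl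
        obtain ⟨i, hi, -, m, e⟩ := exists_other k hf hl
        have e' : l + wv [(tt 2).val] = m + wv [(tt i).val] := by
          rw [wv_single, wv_single, eN_val, eN_val]
          exact e
        fin_cases i
        · exact nodeHit_spec c1 (sat_of c4 e' e')
        · exact nodeHit_spec c2 (sat_of c5 e' e')
        · exact absurd rfl hi
    obtain ⟨g, hg, e2⟩ := s1
    have hfg : f - g ∈ NTm k tt := Submodule.sub_mem _ hf (hle hg)
    have hfg2 : (f - g) 2 = 0 := by rw [Pi.sub_apply, e2, sub_self]
    -- second coordinate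
    let G0 : Submodule (SR k) (Fin 3 → SR k) :=
      Submodule.span (SR k) {x | ∃ j : Fin 17, gdir j.val = 0 ∧ x = gv k j}
    have hG0 : G0 ≤ Submodule.span (SR k) (Set.range (gv k)) := by
      apply Submodule.span_mono
      rintro _ ⟨j, -, rfl⟩
      exact ⟨j, rfl⟩
    have hG02 : ∀ x ∈ G0, x 2 = 0 := by
      intro x hx
      have : G0 ≤ LinearMap.ker (LinearMap.proj (R := SR k) (φ := fun _ : Fin 3 => SR k) 2) := by
        rw [Submodule.span_le]
        rintro _ ⟨j, hj, rfl⟩
        show gv k j 2 = 0
        unfold gv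
        rw [hj]
        show ((0 : ℤ) : SR k) * _ = 0
        simp
      exact this hx
    have s2 : ∃ g' ∈ G0, g' 0 = (f - g) 0 := by
      apply lift_coord k VabM
      · intro v hv
        obtain ⟨j, hj, hw⟩ := Vab_ok v hv
        refine ⟨gv k j, Submodule.subset_span ⟨j, hj, rfl⟩, ?_⟩
        unfold gv
        rw [hj, hw]
        show ((1 : ℤ) : SR k) * _ = _
        simp
      · intro l hl
        obtain ⟨i, hi, hne, m, e⟩ := exists_other k hfg hl
        have e' : l + wv [(tt 0).val] = m + wv [(tt i).val] := by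
          rw [wv_single, wv_single, eN_val, eN_val]
          exact e
        fin_cases i
        · exact absurd rfl hi
        · exact nodeHit_spec c3 (sat_of c6 e' e')
        · exact absurd hfg2 hne
    obtain ⟨g', hg', e0⟩ := s2
    have hr : f - g - g' ∈ NTm k tt := Submodule.sub_mem _ hfg (hle (hG0 hg'))
    have hr2 : (f - g - g') 2 = 0 := by rw [Pi.sub_apply, hfg2, hG02 g' hg', sub_self]
    have hr0 : (f - g - g') 0 = 0 := by rw [Pi.sub_apply, e0, sub_self]
    have hr1 : (f - g - g') 1 = 0 := by
      rw [mem_NTm, Fin.sum_univ_three, hr0, hr2, zero_mul, zero_mul, zero_add, add_zero] at hr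
      exact mul_xv_cancel (b := tt 1) (by rw [hr, zero_mul])
    have hr' : f - g - g' = 0 := by
      funext i
      fin_cases i
      · exact hr0
      · exact hr1
      · exact hr2
    have : f = g + g' := by
      rw [sub_sub, sub_eq_zero] at hr'
      exact hr'
    rw [this]
    exact Submodule.add_mem _ hg (hG0 hg')

/-! ### conclusion -/

/-- the colon masks of the chain are images of members of the family -/
theorem chW_ok : ((List.range 11).all fun n => allU.any (Nat.beq (chW.getD n (0, [])).1) &&
    reach (chW.getD n (0, [])).2 (chW.getD n (0, [])).1 (Vm (n + 6))) = true := by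
  decide +kernel

theorem w12_ok : (reach w1L T0 M1 && reach w2L T0 M2) = true := by decide +kernel

theorem T0_mem : T0 ∈ allU := List.mem_cons_self

theorem Ker_gv : Ker (gv k) = Kg k 17 := by
  ext f
  constructor
  · intro hf
    exact ⟨fun j hj => absurd j.isLt (by omega), hf⟩
  · rintro ⟨-, h⟩
    exact h

theorem seed_step (D : GrData (SR k)) (hD : D.S1 = S1 k) (n : ℕ)
    (h : ∀ U ∈ allU, AA k n U) : AA k (n + 1) T0 := by
  have hw := w12_ok
  rw [Bool.and_eq_true] at hw
  have hT := h T0 T0_mem
  have h6 := Kg6 k D hD n (AA_reach k n _ _ _ hw.1 hT) (AA_reach k n _ _ _ hw.2 hT)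
  have hch : ∀ m, 6 ≤ m → m ≤ 17 → Lin (S1 k) n (Fin 17) (Kg k m) := by
    intro m hm
    induction m, hm using Nat.le_induction with
    | base => intro _; exact h6
    | succ m hm ih =>
      intro hm17
      refine Kg_step k D hD n hm (by omega) (ih (by omega)) ?_
      have h1 := chW_ok
      rw [List.all_eq_true] at h1
      have h2 := h1 (m - 6) (List.mem_range.2 (by omega))
      rw [Nat.sub_add_cancel hm, Bool.and_eq_true, List.any_eq_true] at h2
      obtain ⟨⟨r, hr, e⟩, h3⟩ := h2
      rw [Nat.eq_of_beq_eq_true e] at h3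
      exact Lin.pred (S1 k) n (lin_IV_succ n _ (AA_reach k n _ _ _ h3 (h r hr)))
  apply AA_of_lin_NTm k (n + 1) T0 tt tt_inj T0_spec
  refine ⟨Fin 17, inferInstance, gv k, gv_mem_S1 k, span_gv k, ?_⟩
  rw [Ker_gv]
  exact hch 17 (by omega) le_rfl

theorem seed_zero : AA k 0 T0 := by
  apply AA_of_lin_NTm k 0 T0 tt tt_inj T0_spec
  exact ⟨Fin 17, inferInstance, gv k, gv_mem_S1 k, span_gv k⟩

/-- the relations among all variables have linear presentations to all orders -/
theorem AA_full (D : GrData (SR k)) (hD : D.S1 = S1 k) (n : ℕ) : AA k n 268435455 :=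
  fam_all D hD (seed_zero k) (seed_step k D hD) n _ full_mem

theorem lin_IV_full (D : GrData (SR k)) (hD : D.S1 = S1 k) (n : ℕ) :
    Lin (S1 k) n (Fin 1) (IV k 268435455) := by
  cases n with
  | zero => exact lin_IV_zero _
  | succ n => exact lin_IV_succ n _ (AA_full k D hD n)

end

end Pool.Agent.Helper56.Koszul
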